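import Pool.Agent.Helper94K9.OD.Stm

/-!
# Project OD: basic properties of the suprema over polynomials [BAS]
-/

set_option autoImplicit false

namespace Pool.Agent.Helper94K9.OD

open Finset MeasureTheory Filter Topology
open Polynomial (eval natDegree coeff leadingCoeff)
open Pool.Agent.H807R2.Dav (ee norm_ee ee_add ee_eq')
open Pool.Agent.Helper94K9.OP (SM Mj shift seq IsMult Aperiodic IsFurstenbergSystem Val)

namespace BasL

/-- functions of finitely many coordinates are continuous -/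
theorem dep_cont (F : OP.X → ℝ) (L : ℕ)
    (h : ∀ x y : OP.X, (∀ i : ℕ, i ∈ Icc 1 L → x (i : ℤ) = y (i : ℤ)) → F x = F y) :
    Continuous F := by
  obtain ⟨r, hr⟩ : ∃ r : OP.X → (Icc 1 L → Val), r = fun x i => x ((i : ℕ) : ℤ) := ⟨_, rfl⟩
  have hrc : Continuous r := by
    rw [hr]
    exact continuous_pi fun i => continuous_apply _
  have hfac : Function.FactorsThrough F r := by
    intro x y hxy
    apply h
    intro i hi
    have := congrFun hxy ⟨i, hi⟩
    rw [hr] at this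
    exact this
  have hfin : Finite Val := by
    have : Finite (({-1, 0, 1} : Set ℝ) : Type) := Set.Finite.to_subtype (by simp)
    exact this
  have e : F = Function.extend r F 0 ∘ r := by
    funext x
    exact (hfac.extend_apply 0 x).symm
  rw [e]
  exact (continuous_of_discreteTopology).comp hrc

theorem rep (z : UnitAddCircle) : ∃ b : ℝ, ((b : ℝ) : UnitAddCircle) = z ∧ |b| = ‖z‖ := by
  obtain ⟨t, rfl⟩ := QuotientAddGroup.mk_surjective z
  refine ⟨t - round t, ?_, ?_⟩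
  · have e6 : (((t - ((round t : ℤ) : ℝ) : ℝ)) : UnitAddCircle) =
        ((t : ℝ) : UnitAddCircle) - ((((round t : ℤ) : ℝ) : ℝ) : UnitAddCircle) := AddCircle.coe_sub 1 _ _
    have e7 : ((((round t : ℤ) : ℝ) : ℝ) : UnitAddCircle) = 0 := by
      rw [AddCircle.coe_eq_zero_iff]
      exact ⟨round t, by simp⟩
    rw [e6, e7, sub_zero]
  · exact UnitAddCircle.norm_eq.symm

theorem val_le (v : Val) : |(v : ℝ)| ≤ 1 := by
  have h : (v : ℝ) = -1 ∨ (v : ℝ) = 0 ∨ (v : ℝ) = 1 := v.2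
  rcases h with h | h | h <;> rw [h] <;> norm_num

theorem ee_neg_conj (t : ℝ) : ee (-t) = (starRingEnd ℂ) (ee t) := by
  rw [ee_eq', ee_eq', ← Complex.exp_conj, map_mul, Complex.conj_I, Complex.conj_ofReal]
  congr 1
  push_cast
  ring

theorem ee_near (s t : ℝ) : ‖ee s - ee t‖ ≤ 2 * Real.pi * |s - t| := by
  have h1 : ee s = ee t * ee (s - t) := by
    rw [← ee_add]
    congr 1
    ring
  have h2 : ee t * ee (s - t) - ee t = ee t * (ee (s - t) - 1) := by ring
  rw [h1, h2, norm_mul, norm_ee, one_mul, ee_eq']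
  refine (Real.norm_exp_I_mul_ofReal_sub_one_le (x := 2 * Real.pi * (s - t))).trans (le_of_eq ?_)
  rw [Real.norm_eq_abs, abs_mul, abs_of_pos Real.two_pi_pos]

/-- the sum -/
noncomputable def nx (L : ℕ) (x : OP.X) (P : Polynomial ℝ) : ℂ :=
  ∑ h ∈ Icc 1 L, ((x (h : ℤ) : ℝ) : ℂ) * ee (P.eval (h : ℝ))

theorem cx_eq (L : ℕ) (x : OP.X) (P : Polynomial ℝ) : cx L x P = ‖nx L x P‖ / L := rfl

theorem nx_le (L : ℕ) (x : OP.X) (P : Polynomial ℝ) : ‖nx L x P‖ ≤ L := by
  unfold nx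
  refine (norm_sum_le _ _).trans ?_
  calc ∑ h ∈ Icc 1 L, ‖((x (h : ℤ) : ℝ) : ℂ) * ee (P.eval (h : ℝ))‖ ≤ ∑ h ∈ Icc 1 L, (1 : ℝ) := by
        refine sum_le_sum fun h _ => ?_
        rw [norm_mul, norm_ee, mul_one, Complex.norm_real, Real.norm_eq_abs]
        exact val_le _
    _ = L := by simp

theorem cx_nonneg (L : ℕ) (x : OP.X) (P : Polynomial ℝ) : 0 ≤ cx L x P := by
  rw [cx_eq]
  positivity

theorem cx_le_one (L : ℕ) (x : OP.X) (P : Polynomial ℝ) : cx L x P ≤ 1 := by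
  rw [cx_eq]
  exact div_le_one_of_le₀ (nx_le L x P) (Nat.cast_nonneg L)

variable {d : ℕ}

theorem SD_nonneg (U : Set UnitAddCircle) (L : ℕ) (x : OP.X) : 0 ≤ SD d U L x :=
  Real.iSup_nonneg fun P => cx_nonneg L x P

theorem SD_le_of (U : Set UnitAddCircle) (L : ℕ) (x : OP.X) (a : ℝ) (ha : 0 ≤ a)
    (h : ∀ P ∈ PU d U, cx L x P ≤ a) : SD d U L x ≤ a :=
  Real.iSup_le (fun P => h P P.2) ha

theorem SD_le_one (U : Set UnitAddCircle) (L : ℕ) (x : OP.X) : SD d U L x ≤ 1 :=
  SD_le_of U L x 1 zero_le_one fun P _ => cx_le_one L x P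

theorem le_SD (U : Set UnitAddCircle) (L : ℕ) (x : OP.X) (P : Polynomial ℝ) (hP : P ∈ PU d U) :
    cx L x P ≤ SD d U L x := by
  have hb : BddAbove (Set.range fun P : PU d U => cx L x (P : Polynomial ℝ)) :=
    ⟨1, by rintro _ ⟨P, rfl⟩; exact cx_le_one L x P⟩
  exact le_ciSup hb (⟨P, hP⟩ : PU d U)

theorem norm_le_SD (U : Set UnitAddCircle) (L : ℕ) (x : OP.X) (P : Polynomial ℝ)
    (hP : P ∈ PU d U) : ‖nx L x P‖ ≤ L * SD d U L x := by
  rcases Nat.eq_zero_or_pos L with h | h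
  · subst h
    unfold nx
    simp
  · have hL : (0 : ℝ) < L := by exact_mod_cast h
    have h1 := le_SD U L x P hP
    rw [cx_eq, div_le_iff₀ hL] at h1
    linarith

theorem nx_dep (L : ℕ) (x y : OP.X) (h : ∀ i : ℕ, i ∈ Icc 1 L → x (i : ℤ) = y (i : ℤ))
    (P : Polynomial ℝ) : cx L x P = cx L y P := by
  rw [cx_eq, cx_eq]
  unfold nx
  congr 2
  refine sum_congr rfl fun i hi => ?_
  rw [h i hi]

theorem SD_cont (U : Set UnitAddCircle) (L : ℕ) : Continuous (SD d U L) := by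
  refine dep_cont _ L fun x y h => ?_
  unfold SD
  simp only [nx_dep L x y h]

theorem nx_add (L M : ℕ) (x : OP.X) (P : Polynomial ℝ) :
    nx (L + M) x P = nx L x P + nx M (shift (L : ℤ) x)
      (P.comp (Polynomial.X + Polynomial.C (L : ℝ))) := by
  have e : ∀ (K : ℕ) (y : OP.X) (R : Polynomial ℝ), nx K y R =
      ∑ h ∈ range K, ((y ((h + 1 : ℕ) : ℤ) : ℝ) : ℂ) * ee (R.eval ((h + 1 : ℕ) : ℝ)) := by
    intro K y R
    unfold nx
    have h1 : Icc 1 K = (range K).image (fun h => h + 1) := by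
      ext j
      simp only [mem_Icc, mem_image, mem_range]
      constructor
      · intro h; exact ⟨j - 1, by omega, by omega⟩
      · rintro ⟨i, hi, rfl⟩; omega
    rw [h1, sum_image fun a _ b _ hab => by omega]
  rw [e, e, e, sum_range_add]
  congr 1
  refine sum_congr rfl fun h _ => ?_
  have h1 : (shift (L : ℤ) x) ((h + 1 : ℕ) : ℤ) = x ((L + h + 1 : ℕ) : ℤ) := by
    unfold shift
    congr 1
    push_cast
    ring
  have h2 : (P.comp (Polynomial.X + Polynomial.C (L : ℝ))).eval ((h + 1 : ℕ) : ℝ) =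
      P.eval ((L + h + 1 : ℕ) : ℝ) := by
    rw [Polynomial.eval_comp, Polynomial.eval_add, Polynomial.eval_X, Polynomial.eval_C]
    congr 1
    push_cast
    ring
  rw [h1, h2]

/-- translations do not change the leading coefficient -/
theorem PU_comp {U : Set UnitAddCircle} {P : Polynomial ℝ} (hP : P ∈ PU d U) (a : ℝ) :
    P.comp (Polynomial.X + Polynomial.C a) ∈ PU d U := by
  obtain ⟨h1, h2⟩ := hP
  have hd : (P.comp (Polynomial.X + Polynomial.C a)).natDegree = P.natDegree := by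
    rw [Polynomial.natDegree_comp, Polynomial.natDegree_X_add_C, mul_one]
  refine ⟨by rw [hd]; exact h1, ?_⟩
  have hc : (P.comp (Polynomial.X + Polynomial.C a)).coeff d = P.coeff d := by
    rcases h1.lt_or_eq with h3 | h3
    · rw [Polynomial.coeff_eq_zero_of_natDegree_lt h3,
        Polynomial.coeff_eq_zero_of_natDegree_lt (by rw [hd]; exact h3)]
    · have h4 := Polynomial.leadingCoeff_comp (p := P) (q := Polynomial.X + Polynomial.C a)
        (by rw [Polynomial.natDegree_X_add_C]; exact one_ne_zero)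
      rw [(Polynomial.monic_X_add_C a).leadingCoeff, one_pow, mul_one] at h4
      unfold Polynomial.leadingCoeff at h4
      rw [hd, h3] at h4
      exact h4
  rw [hc]
  exact h2

theorem SD_add (U : Set UnitAddCircle) (L M : ℕ) (x : OP.X) :
    ((L + M : ℕ) : ℝ) * SD d U (L + M) x ≤ L * SD d U L x + M * SD d U M (shift (L : ℤ) x) := by
  have h0 : 0 ≤ L * SD d U L x + M * SD d U M (shift (L : ℤ) x) := by
    have := SD_nonneg (d := d) U L x
    have := SD_nonneg (d := d) U M (shift (L : ℤ) x)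
    positivity
  rcases Nat.eq_zero_or_pos (L + M) with h | h
  · rw [h]
    simpa using h0
  · have hL : (0 : ℝ) < ((L + M : ℕ) : ℝ) := by exact_mod_cast h
    have h1 : SD d U (L + M) x ≤
        (L * SD d U L x + M * SD d U M (shift (L : ℤ) x)) / ((L + M : ℕ) : ℝ) := by
      refine SD_le_of U (L + M) x _ (by positivity) fun P hP => ?_
      rw [cx_eq]
      refine div_le_div_of_nonneg_right ?_ hL.le
      rw [nx_add]
      exact (norm_add_le _ _).trans (add_le_add (norm_le_SD U L x P hP)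
        (norm_le_SD U M _ _ (PU_comp hP _)))
    rw [le_div_iff₀ hL] at h1
    linarith

theorem cx_neg (L : ℕ) (x : OP.X) (P : Polynomial ℝ) : cx L x (-P) = cx L x P := by
  have h : nx L x (-P) = (starRingEnd ℂ) (nx L x P) := by
    unfold nx
    rw [map_sum]
    refine sum_congr rfl fun h _ => ?_
    rw [map_mul, Complex.conj_ofReal, Polynomial.eval_neg, ee_neg_conj]
  rw [cx_eq, cx_eq, h, RCLike.norm_conj]

theorem SD_symm (U : Set UnitAddCircle) (L : ℕ) (x : OP.X) :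
    SD d (U ∪ -U) L x = SD d U L x := by
  apply le_antisymm
  · refine SD_le_of _ L x _ (SD_nonneg U L x) fun P hP => ?_
    rcases hP.2 with h | h
    · exact le_SD U L x P ⟨hP.1, h⟩
    · rw [← cx_neg]
      refine le_SD U L x (-P) ⟨by rw [Polynomial.natDegree_neg]; exact hP.1, ?_⟩
      rw [Polynomial.coeff_neg, AddCircle.coe_neg]
      exact Set.mem_neg.1 h
  · exact SD_le_of _ L x _ (SD_nonneg _ L x) fun P hP => le_SD _ L x P ⟨hP.1, Or.inl hP.2⟩

theorem term_near (L i : ℕ) (hi : i ≤ L) (v : Val) (P : Polynomial ℝ) (b : ℝ) :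
    ‖((v : ℝ) : ℂ) * ee (P.eval (i : ℝ)) -
      ((v : ℝ) : ℂ) * ee ((P + Polynomial.C b * Polynomial.X ^ d).eval (i : ℝ))‖ ≤
      2 * Real.pi * (L : ℝ) ^ d * |b| := by
  have h3 := ee_near (P.eval (i : ℝ)) ((P + Polynomial.C b * Polynomial.X ^ d).eval (i : ℝ))
  have h4 : P.eval (i : ℝ) - (P + Polynomial.C b * Polynomial.X ^ d).eval (i : ℝ) =
      -(b * (i : ℝ) ^ d) := by
    rw [Polynomial.eval_add, Polynomial.eval_mul, Polynomial.eval_C,
      Polynomial.eval_pow, Polynomial.eval_X]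
    ring
  have h6 : (0 : ℝ) ≤ (i : ℝ) ^ d := pow_nonneg (Nat.cast_nonneg i) d
  rw [h4, abs_neg, abs_mul, abs_of_nonneg h6] at h3
  have h5 : (i : ℝ) ^ d ≤ (L : ℝ) ^ d :=
    pow_le_pow_left₀ (Nat.cast_nonneg i) (by exact_mod_cast hi) d
  rw [← mul_sub, norm_mul, Complex.norm_real, Real.norm_eq_abs]
  have h7 := mul_le_mul (val_le v) h3 (norm_nonneg _) zero_le_one
  refine h7.trans ?_
  have h8 : |b| * (i : ℝ) ^ d ≤ |b| * (L : ℝ) ^ d := mul_le_mul_of_nonneg_left h5 (abs_nonneg b)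
  have h9 := mul_le_mul_of_nonneg_left h8 Real.two_pi_pos.le
  linarith

/-- change of the leading coefficient -/
theorem cx_near (hd : 1 ≤ d) (L : ℕ) (x : OP.X) (P : Polynomial ℝ) (b : ℝ) :
    cx L x P ≤ cx L x (P + Polynomial.C b * Polynomial.X ^ d) +
      2 * Real.pi * (L : ℝ) ^ d * |b| := by
  rcases Nat.eq_zero_or_pos L with h | h
  · subst h
    rw [cx_eq, cx_eq]
    have hz : (((0 : ℕ) : ℝ)) ^ d = 0 := by
      rw [Nat.cast_zero, zero_pow (by omega)]
    rw [hz, Nat.cast_zero, div_zero, div_zero]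
    simp
  · have hL : (0 : ℝ) < L := by exact_mod_cast h
    obtain ⟨R, hR⟩ : ∃ R : Polynomial ℝ, R = P + Polynomial.C b * Polynomial.X ^ d := ⟨_, rfl⟩
    obtain ⟨K, hK⟩ : ∃ K : ℝ, K = 2 * Real.pi * (L : ℝ) ^ d * |b| := ⟨_, rfl⟩
    have h2 : ‖nx L x P - nx L x R‖ ≤ L * K := by
      unfold nx
      rw [← sum_sub_distrib]
      refine (norm_sum_le_of_le (f := fun i : ℕ => ((x (i : ℤ) : ℝ) : ℂ) * ee (P.eval (i : ℝ)) -
        ((x (i : ℤ) : ℝ) : ℂ) * ee (R.eval (i : ℝ))) (Icc 1 L) (n := fun _ => K) fun i hi => ?_).trans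
          (le_of_eq ?_)
      · rw [hR, hK]
        exact term_near L i (mem_Icc.1 hi).2 _ P b
      · rw [sum_const, Nat.card_Icc, nsmul_eq_mul, Nat.add_sub_cancel]
    have h3 := norm_sub_norm_le (nx L x P) (nx L x R)
    rw [← hR, ← hK, cx_eq, cx_eq, div_add' _ _ _ hL.ne']
    refine div_le_div_of_nonneg_right ?_ hL.le
    linarith

theorem SD_thick (hd : 1 ≤ d) (U : Set UnitAddCircle) (L : ℕ) (δ : ℝ) (hδ : 0 < δ) (x : OP.X) :
    SD d (Metric.thickening δ U) L x ≤ SD d U L x + 2 * Real.pi * (L : ℝ) ^ d * δ := by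
  have h0 := SD_nonneg (d := d) U L x
  refine SD_le_of _ L x _ (by positivity) fun P hP => ?_
  obtain ⟨θ, h1, h2⟩ := Metric.mem_thickening_iff.1 hP.2
  obtain ⟨b, hb, hbn⟩ := rep (θ - ((P.coeff d : ℝ) : UnitAddCircle))
  have h3 := cx_near hd L x P b
  have hmem : P + Polynomial.C b * Polynomial.X ^ d ∈ PU d U := by
    refine ⟨(Polynomial.natDegree_add_le _ _).trans (max_le hP.1
      (Polynomial.natDegree_C_mul_X_pow_le _ _)), ?_⟩
    rw [Polynomial.coeff_add, Polynomial.coeff_C_mul_X_pow, if_pos rfl, AddCircle.coe_add, hb,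
      add_sub_cancel]
    exact h1
  have h4 := le_SD U L x _ hmem
  rw [dist_comm, dist_eq_norm, ← hbn] at h2
  have h5 : 2 * Real.pi * (L : ℝ) ^ d * |b| ≤ 2 * Real.pi * (L : ℝ) ^ d * δ :=
    mul_le_mul_of_nonneg_left h2.le (by positivity)
  linarith

end BasL

open BasL in
theorem bas : S_BAS := fun _ hd U L =>
  ⟨SD_cont U L, fun x => ⟨SD_nonneg U L x, SD_le_one U L x⟩, fun x P hP => le_SD U L x P hP,
    fun M x => SD_add U L M x, fun x => SD_symm U L x, fun δ hδ x => SD_thick hd U L δ hδ x⟩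

end Pool.Agent.Helper94K9.OD
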