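import Pool.Agent.Helper94K9.OD.St5
import Pool.Agent.Helper94K9.OP.Par

set_option autoImplicit false
set_option linter.unusedSectionVars false
set_option linter.unusedVariables false

/-!
# [BND] local energy of an exponential sum
-/

namespace Pool.Agent.Helper94K9.OD

open Finset MeasureTheory Filter Topology
open Pool.Agent.Helper94K9.OP (X VX V)
open Pool.Agent.Helper94K9.OP.ParL

namespace BndL

theorem int_on (W : Set UnitAddCircle) (w : UnitAddCircle → ℝ) (hw : Continuous w) :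
    Integrable w (volume.restrict W) :=
  (cont_intR w hw).restrict

/-- the inequality of Cauchy and Schwarz -/
theorem cs (W : Set UnitAddCircle) (u v : UnitAddCircle → ℝ) (hu : Continuous u)
    (hv : Continuous v) :
    (∫ θ in W, u θ * v θ) ^ 2 ≤ (∫ θ in W, u θ ^ 2) * ∫ θ in W, v θ ^ 2 := by
  have h1 : ∀ t : ℝ, 0 ≤ (∫ θ in W, v θ ^ 2) * (t * t) +
      (-2 * ∫ θ in W, u θ * v θ) * t + ∫ θ in W, u θ ^ 2 := by
    intro t
    have h2 : 0 ≤ ∫ θ in W, (u θ - t * v θ) ^ 2 := integral_nonneg fun θ => sq_nonneg _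
    have h3 : ∫ θ in W, (u θ - t * v θ) ^ 2 = (∫ θ in W, v θ ^ 2) * (t * t) +
        (-2 * ∫ θ in W, u θ * v θ) * t + ∫ θ in W, u θ ^ 2 := by
      have e : ∀ θ, (u θ - t * v θ) ^ 2 =
          (t * t) * v θ ^ 2 + (-2 * t) * (u θ * v θ) + u θ ^ 2 := fun θ => by ring
      simp only [e]
      rw [integral_add (int_on W _ (by fun_prop)) (int_on W _ (by fun_prop)),
        integral_add (int_on W _ (by fun_prop)) (int_on W _ (by fun_prop)), integral_const_mul,
        integral_const_mul]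
      ring
    rwa [h3] at h2
  have h4 := discrim_le_zero h1
  rw [discrim] at h4
  nlinarith

theorem fourier_sub_arg (n : ℤ) (a b : UnitAddCircle) :
    (fourier (-n) (a - b) : ℂ) = (fourier (-n) a : ℂ) * (fourier n b : ℂ) := by
  rw [fourier_apply, fourier_apply, fourier_apply, ← Circle.coe_mul, ← AddCircle.toCircle_add]
  congr 2
  rw [smul_sub, neg_smul, neg_smul, sub_neg_eq_add]

/-- the reproducing kernel -/
theorem rep (f : ℕ → ℝ) (L : ℕ) (θ₀ : UnitAddCircle) :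
    V f 0 L θ₀ = ∫ θ, V f 0 L θ * (starRingEnd ℂ) (DK L (θ - θ₀)) := by
  have h1 : ∀ θ, V f 0 L θ * (starRingEnd ℂ) (DK L (θ - θ₀)) =
      ∑ m ∈ Ioc 0 (0 + L), ∑ h ∈ Icc 1 L, (((f m : ℝ) : ℂ) * (fourier (h : ℤ) θ₀ : ℂ)) *
        (fourier ((m : ℤ) - h) θ : ℂ) := by
    intro θ
    unfold V DK
    rw [map_sum, sum_mul_sum]
    refine sum_congr rfl fun m _ => sum_congr rfl fun h _ => ?_
    rw [conj_fourier, fourier_sub_arg, sub_eq_add_neg, fourier_add]
    ring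
  simp only [h1]
  rw [integral_finsetSum _ fun m _ => cont_int _ (by fun_prop)]
  unfold V
  refine sum_congr rfl fun m hm => ?_
  rw [integral_finsetSum _ fun h _ => cont_int _ (by fun_prop)]
  simp only [integral_const_mul, int_fourier]
  rw [sum_eq_single m]
  · simp
  · intro h _ hne
    rw [if_neg, mul_zero]
    intro h2
    exact hne (by omega)
  · intro h2
    exfalso
    apply h2
    rw [mem_Ioc] at hm
    rw [mem_Icc]
    omega

theorem Ioc_eq (L : ℕ) : Ioc 0 (0 + L) = Icc 1 L := by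
  ext m
  rw [mem_Ioc, mem_Icc]
  omega

theorem VX_eq (L : ℕ) (x : X) (θ : UnitAddCircle) :
    VX L x θ = V (fun n => ((x (n : ℤ) : ℝ))) 0 L θ := by
  unfold VX V
  rw [Ioc_eq]

theorem DK_eq (L : ℕ) (θ : UnitAddCircle) : DK L θ = V (fun _ => 1) 0 L θ := by
  unfold DK V
  rw [Ioc_eq]
  refine sum_congr rfl fun m _ => ?_
  rw [Complex.ofReal_one, one_mul]

theorem energy (f : ℕ → ℝ) (hf : ∀ n, |f n| ≤ 1) (L : ℕ) :
    ∫ θ : UnitAddCircle, ‖V f 0 L θ‖ ^ 2 ≤ L := by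
  rw [parseval]
  calc ∑ m ∈ Ioc 0 (0 + L), f m ^ 2 ≤ ∑ m ∈ Ioc 0 (0 + L), (1 : ℝ) := by
        refine sum_le_sum fun m _ => ?_
        rw [← sq_abs]
        exact pow_le_one₀ (abs_nonneg _) (hf m)
    _ = L := by simp

theorem shift_int (T : Set UnitAddCircle) (hT : MeasurableSet T) (h : UnitAddCircle → ℝ)
    (θ₀ : UnitAddCircle) : ∫ θ in {θ | θ - θ₀ ∈ T}, h (θ - θ₀) = ∫ φ in T, h φ := by
  have hm : MeasurableSet {θ : UnitAddCircle | θ - θ₀ ∈ T} :=
    (continuous_id.sub continuous_const).measurable hT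
  rw [← integral_indicator hm, ← integral_indicator hT,
    ← integral_sub_right_eq_self (T.indicator h) θ₀]
  rfl

end BndL

open BndL in
theorem bnd : S_KER → S_BND := by
  intro ker L x θ₀ C ε hL hε hC
  have hL0 : (0 : ℝ) < L := by exact_mod_cast hL
  set f : ℕ → ℝ := fun n => ((x (n : ℤ) : ℝ)) with hf
  have hf1 : ∀ n, |f n| ≤ 1 := by
    intro n
    have := (x (n : ℤ)).2
    simp only [Set.mem_insert_iff, Set.mem_singleton_iff] at this
    rcases this with h | h | h <;> rw [hf] <;> simp only [h] <;> norm_num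
  have hVX : ∀ θ, VX L x θ = V f 0 L θ := fun θ => VX_eq L x θ
  simp only [hVX]
  have hB : Continuous fun θ => ‖V f 0 L θ‖ := (V_cont f 0 L).norm
  have hDc : Continuous (DK L) := by
    have h1 : DK L = V (fun _ => 1) 0 L := funext fun θ => DK_eq L θ
    rw [h1]
    exact V_cont _ 0 L
  have hD : Continuous fun θ => ‖DK L (θ - θ₀)‖ :=
    (hDc.comp (continuous_id.sub continuous_const)).norm
  set S := Metric.closedBall θ₀ (C / (L : ℝ)) with hS
  have hSm : MeasurableSet S := Metric.isClosed_closedBall.measurableSet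
  set I1 := ∫ θ in S, ‖V f 0 L θ‖ * ‖DK L (θ - θ₀)‖ with hI1
  set I2 := ∫ θ in Sᶜ, ‖V f 0 L θ‖ * ‖DK L (θ - θ₀)‖ with hI2
  have hsplit : I1 + I2 = ∫ θ, ‖V f 0 L θ‖ * ‖DK L (θ - θ₀)‖ :=
    integral_add_compl hSm (cont_intR _ (hB.mul hD))
  have hmain : ‖V f 0 L θ₀‖ ≤ I1 + I2 := by
    rw [hsplit, rep f L θ₀]
    refine (norm_integral_le_integral_norm _).trans (le_of_eq ?_)
    refine integral_congr_ae (Eventually.of_forall fun θ => ?_)
    show ‖V f 0 L θ * (starRingEnd ℂ) (DK L (θ - θ₀))‖ = ‖V f 0 L θ‖ * ‖DK L (θ - θ₀)‖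
    rw [norm_mul, RCLike.norm_conj]
  have hE0 : 0 ≤ ∫ θ in S, ‖V f 0 L θ‖ ^ 2 := integral_nonneg fun θ => by positivity
  set E := ∫ θ in S, ‖V f 0 L θ‖ ^ 2 with hE
  have hDtot : ∫ θ : UnitAddCircle, ‖DK L (θ - θ₀)‖ ^ 2 ≤ L := by
    rw [integral_sub_right_eq_self (fun θ : UnitAddCircle => ‖DK L θ‖ ^ 2) θ₀]
    simp only [DK_eq]
    exact energy _ (fun _ => by simp) L
  have h1 : I1 ^ 2 ≤ E * L := by
    refine (cs S _ _ hB hD).trans ?_
    refine mul_le_mul_of_nonneg_left ?_ hE0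
    exact (setIntegral_le_integral (cont_intR _ (hD.pow 2))
      (Eventually.of_forall fun θ => sq_nonneg _)).trans hDtot
  have hSc : Sᶜ = {θ : UnitAddCircle | θ - θ₀ ∈ {φ : UnitAddCircle | C / L < ‖φ‖}} := by
    ext θ
    rw [Set.mem_compl_iff, hS, Metric.mem_closedBall, dist_eq_norm, not_le]
    rfl
  have h2 : I2 ^ 2 ≤ L * (L / (2 * C)) := by
    refine (cs Sᶜ _ _ hB hD).trans ?_
    have k1 : ∫ θ in Sᶜ, ‖V f 0 L θ‖ ^ 2 ≤ L :=
      (setIntegral_le_integral (cont_intR _ (hB.pow 2))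
        (Eventually.of_forall fun θ => sq_nonneg _)).trans (energy f hf1 L)
    have k2 : ∫ θ in Sᶜ, ‖DK L (θ - θ₀)‖ ^ 2 ≤ L / (2 * C) := by
      rw [hSc, shift_int {φ : UnitAddCircle | C / L < ‖φ‖}
        (isOpen_lt continuous_const continuous_norm).measurableSet (fun φ => ‖DK L φ‖ ^ 2) θ₀]
      refine (ker L (C / L) (by positivity)).trans (le_of_eq ?_)
      field_simp
    have k3 : 0 ≤ ∫ θ in Sᶜ, ‖DK L (θ - θ₀)‖ ^ 2 := integral_nonneg fun θ => by positivity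
    exact mul_le_mul k1 k2 k3 hL0.le
  have h3 : ‖V f 0 L θ₀‖ ^ 2 ≤ (I1 + I2) ^ 2 := pow_le_pow_left₀ (norm_nonneg _) hmain 2
  have h4 : (I1 + I2) ^ 2 ≤ (1 + ε) * I1 ^ 2 + (1 + 1 / ε) * I2 ^ 2 := by
    have e : (1 + ε) * I1 ^ 2 + (1 + 1 / ε) * I2 ^ 2 - (I1 + I2) ^ 2 = (ε * I1 - I2) ^ 2 / ε := by
      field_simp
      ring
    have : 0 ≤ (ε * I1 - I2) ^ 2 / ε := by positivity
    linarith
  rw [integral_div, div_pow, div_le_iff₀ (by positivity)]
  have h5 : ((1 + ε) * (E / L) + (1 + 1 / ε) / (2 * C)) * (L : ℝ) ^ 2 =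
      (1 + ε) * (E * L) + (1 + 1 / ε) * (L * (L / (2 * C))) := by
    field_simp
  rw [h5]
  refine h3.trans (h4.trans (add_le_add ?_ ?_))
  · exact mul_le_mul_of_nonneg_left h1 (by positivity)
  · exact mul_le_mul_of_nonneg_left h2 (by positivity)

end Pool.Agent.Helper94K9.OD
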