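import Pool.Agent.Helper94K9.OD.Stm
import Pool.Agent.Helper94K9.OP.Eqd
import Pool.Agent.Helper94K9.OP.Par
import Pool.Agent.Helper44K9.FU.Trig

/-!
# Project OD: equidistribution of `p ^ d θ` on the minor arcs, all test functions [EQP]
-/

set_option autoImplicit false

namespace Pool.Agent.Helper94K9.OD

open Finset MeasureTheory Filter Topology
open Pool.Agent.H807R2.Dav (ee norm_ee ee_add)
open Pool.Agent.Helper94K9.OP (Mj MajL.fourier_ee)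

namespace EqpL

open Pool.Agent.Helper94K9.OP.EqdL (blocks norm_coe_le)

/-- the weight before normalisation -/
noncomputable def v (p : ℕ) : ℝ := Real.log p / ((2 : ℝ) ^ Nat.log 2 (p - 1) * (Nat.log 2 (p - 1) : ℝ))

lemma v_nn (p : ℕ) : 0 ≤ v p := div_nonneg (Real.log_natCast_nonneg p) (by positivity)

lemma v_blk {k p : ℕ} (h1 : 2 ^ k < p) (h2 : p ≤ 2 ^ (k + 1)) : v p = Real.log p / ((2 : ℝ) ^ k * (k : ℝ)) := by
  have h3 : 0 < 2 ^ k := by positivity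
  have h : Nat.log 2 (p - 1) = k := by
    rw [Nat.log_eq_iff (Or.inr ⟨by norm_num, by omega⟩)]
    constructor <;> omega
  unfold v
  rw [h]

lemma v_le {k p : ℕ} (hk : 1 ≤ k) (h1 : 2 ^ k < p) (h2 : p ≤ 2 ^ (k + 1)) : v p ≤ 3 / (p : ℝ) := by
  have hk0 : (1 : ℝ) ≤ k := by exact_mod_cast hk
  have hp0 : (0 : ℝ) < p := by
    have : 0 < p := by omega
    exact_mod_cast this
  have h3 : Real.log p ≤ (k + 1) * Real.log 2 := by
    have h4 : Real.log p ≤ Real.log ((2 : ℝ) ^ (k + 1)) := Real.log_le_log hp0 (by exact_mod_cast h2)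
    rw [Real.log_pow] at h4
    push_cast at h4
    exact h4
  have h5 : (p : ℝ) ≤ 2 * 2 ^ k := by
    have : (p : ℝ) ≤ (2 : ℝ) ^ (k + 1) := by exact_mod_cast h2
    rw [pow_succ] at this
    linarith
  have hl1 := Real.log_two_lt_d9
  have hl0 : 0 < Real.log 2 := Real.log_pos (by norm_num)
  have h6 : (0 : ℝ) < 2 ^ k := by positivity
  rw [v_blk h1 h2, div_le_div_iff₀ (by positivity) hp0]
  have h7 : Real.log p ≤ 2 * k * Real.log 2 := by nlinarith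
  have h8 : Real.log p * p ≤ (2 * k * Real.log 2) * (2 * 2 ^ k) :=
    mul_le_mul h7 h5 hp0.le (by positivity)
  have h9 : (2 * k * Real.log 2) * (2 * 2 ^ k) = (4 * Real.log 2) * (2 ^ k * k) := by ring
  rw [h9] at h8
  refine h8.trans ?_
  exact mul_le_mul_of_nonneg_right (by linarith) (by positivity)

lemma v_ge {k p : ℕ} (hk : 1 ≤ k) (h1 : 2 ^ k < p) (h2 : p ≤ 2 ^ (k + 1)) : 1 / 2 * (1 / (p : ℝ)) ≤ v p := by
  have hk0 : (1 : ℝ) ≤ k := by exact_mod_cast hk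
  have hp1 : (2 : ℝ) ^ k ≤ p := by exact_mod_cast h1.le
  have h6 : (0 : ℝ) < 2 ^ k := by positivity
  have hp0 : (0 : ℝ) < p := by linarith
  have hl1 := Real.log_two_gt_d9
  have h3 : (k : ℝ) * Real.log 2 ≤ Real.log p := by
    rw [← Real.log_pow]
    exact Real.log_le_log (by positivity) hp1
  rw [v_blk h1 h2, one_div_mul_one_div, div_le_div_iff₀ (by positivity) (by positivity), one_mul]
  have h4 : (2 : ℝ) ^ k * k ≤ p * k := mul_le_mul_of_nonneg_right hp1 (by linarith)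
  have h5 : (k : ℝ) * 1 ≤ 2 * Real.log p := by nlinarith
  calc (2 : ℝ) ^ k * k ≤ p * k := h4
    _ ≤ p * (2 * Real.log p) := mul_le_mul_of_nonneg_left (by linarith) hp0.le
    _ = Real.log p * (2 * p) := by ring

lemma nonprime (ε : ℝ) (hε : 0 < ε) : ∃ N₀ : ℕ, ∀ N ≥ N₀,
    ∑ n ∈ (Ioc N (2 * N)).filter (fun n => ¬ n.Prime), ArithmeticFunction.vonMangoldt n ≤ ε * N := by
  obtain ⟨C, hC⟩ := Chebyshev.psi_sub_theta_le_mul_sqrt
  obtain ⟨N₀, hN₀⟩ := exists_nat_ge (2 * (|C| / ε) ^ 2)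
  refine ⟨N₀, fun N hN => ?_⟩
  have h1 : ∑ n ∈ (Ioc N (2 * N)).filter (fun n => ¬ n.Prime), ArithmeticFunction.vonMangoldt n ≤
      ∑ n ∈ (Ioc 0 ⌊((2 * N : ℕ) : ℝ)⌋₊).filter (fun n => ¬ n.Prime), ArithmeticFunction.vonMangoldt n := by
    refine sum_le_sum_of_subset_of_nonneg ?_ fun _ _ _ => ArithmeticFunction.vonMangoldt_nonneg
    rw [Nat.floor_natCast]
    intro n hn
    simp only [mem_filter, mem_Ioc] at hn ⊢
    exact ⟨⟨by omega, hn.1.2⟩, hn.2⟩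
  rw [← Chebyshev.psi_sub_theta_eq_sum_not_prime] at h1
  have h2 := hC ((2 * N : ℕ) : ℝ)
  have hNr : (N₀ : ℝ) ≤ N := by exact_mod_cast hN
  have h3 : |C| * √((2 * N : ℕ) : ℝ) ≤ ε * N := by
    rw [← sq_le_sq₀ (by positivity) (by positivity), mul_pow, mul_pow, Real.sq_sqrt (by positivity)]
    have h4 : 2 * (|C| / ε) ^ 2 ≤ N := hN₀.trans hNr
    have h5 : 2 * |C| ^ 2 ≤ N * ε ^ 2 := by
      rw [div_pow, ← mul_div_assoc, div_le_iff₀ (by positivity)] at h4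
      exact h4
    push_cast
    have hN0 : (0 : ℝ) ≤ N := Nat.cast_nonneg _
    calc |C| ^ 2 * (2 * (N : ℝ)) = (2 * |C| ^ 2) * N := by ring
      _ ≤ (N * ε ^ 2) * N := mul_le_mul_of_nonneg_right h5 hN0
      _ = ε ^ 2 * (N : ℝ) ^ 2 := by ring
  have h6 : C * √((2 * N : ℕ) : ℝ) ≤ |C| * √((2 * N : ℕ) : ℝ) :=
    mul_le_mul_of_nonneg_right (le_abs_self _) (Real.sqrt_nonneg _)
  linarith

lemma wpd (hPW : Pool.Agent.Helper44K9.FU.S_PW) (d : ℕ) (hd : 1 ≤ d) (ε : ℝ) (hε : 0 < ε) :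
    ∃ C : ℕ, 1 ≤ C ∧ ∀ τ : ℝ, 0 < τ →
    ∃ K : ℕ, ∀ k ≥ K, ∀ θ : ℝ, (∀ q : ℕ, 1 ≤ q → q ≤ C → ∀ a : ℤ, τ < |q * θ - a|) →
    ‖∑ p ∈ (Ioc (2 ^ k) (2 ^ (k + 1))).filter Nat.Prime, ((v p : ℝ) : ℂ) * ee ((p : ℝ) ^ d * θ)‖ ≤ ε / k := by
  obtain ⟨C, N₀, hC1, hN₀⟩ := hPW d hd (ε / 2) (by positivity)
  obtain ⟨N₁, hN₁⟩ := nonprime (ε / 2) (by positivity)
  refine ⟨C, hC1, fun τ hτ => ?_⟩
  obtain ⟨N₂, hN₂⟩ := exists_nat_ge ((C : ℝ) / τ)
  refine ⟨N₀ + N₁ + N₂ + 1, fun k hk θ hθ => ?_⟩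
  have hk2 : k < 2 ^ k := Nat.lt_two_pow_self
  have hk0 : (0 : ℝ) < k := by exact_mod_cast (by omega : 0 < k)
  obtain ⟨N, hN⟩ : ∃ N : ℕ, N = 2 ^ k := ⟨_, rfl⟩
  have e0 : (2 : ℕ) ^ (k + 1) = 2 * N := by rw [pow_succ, hN]; ring
  have hNr : (N : ℝ) = (2 : ℝ) ^ k := by rw [hN]; push_cast; rfl
  have hN0 : (0 : ℝ) < N := by rw [hNr]; positivity
  rw [← hN] at hk2
  -- the whole sum
  have h1 : ‖∑ n ∈ Ioc N (2 * N), ((ArithmeticFunction.vonMangoldt n : ℝ) : ℂ) * ee (θ * (n : ℝ) ^ d)‖ ≤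
      ε / 2 * N := by
    by_contra hcon
    push Not at hcon
    obtain ⟨q, hq1, hqC, a, ha⟩ := hN₀ N (by omega) θ hcon.le
    have h2 := hθ q hq1 hqC a
    have h3 : (C : ℝ) / (N : ℝ) ^ d ≤ τ := by
      have h4 : (1 : ℝ) ≤ N := by exact_mod_cast (by omega : 1 ≤ N)
      have h5 : (N : ℝ) ≤ (N : ℝ) ^ d := le_self_pow₀ h4 (by omega)
      have h6 : (N₂ : ℝ) ≤ N := by exact_mod_cast (by omega : N₂ ≤ N)
      rw [div_le_iff₀ hτ] at hN₂
      rw [div_le_iff₀ (by positivity)]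
      calc (C : ℝ) ≤ N₂ * τ := hN₂
        _ ≤ (N : ℝ) ^ d * τ := mul_le_mul_of_nonneg_right (h6.trans h5) hτ.le
        _ = τ * (N : ℝ) ^ d := mul_comm _ _
    linarith
  have h2 : ∑ p ∈ (Ioc N (2 * N)).filter Nat.Prime, ((Real.log p : ℝ) : ℂ) * ee (θ * (p : ℝ) ^ d) =
      ∑ n ∈ Ioc N (2 * N), ((ArithmeticFunction.vonMangoldt n : ℝ) : ℂ) * ee (θ * (n : ℝ) ^ d) -
      ∑ n ∈ (Ioc N (2 * N)).filter (fun n => ¬ n.Prime),
        ((ArithmeticFunction.vonMangoldt n : ℝ) : ℂ) * ee (θ * (n : ℝ) ^ d) := by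
    rw [← sum_filter_add_sum_filter_not (Ioc N (2 * N)) Nat.Prime, add_sub_cancel_right]
    refine sum_congr rfl fun p hp => ?_
    rw [mem_filter] at hp
    rw [ArithmeticFunction.vonMangoldt_apply_prime hp.2]
  have h3 : ‖∑ n ∈ (Ioc N (2 * N)).filter (fun n => ¬ n.Prime),
      ((ArithmeticFunction.vonMangoldt n : ℝ) : ℂ) * ee (θ * (n : ℝ) ^ d)‖ ≤ ε / 2 * N := by
    refine (norm_sum_le _ _).trans (le_trans (le_of_eq ?_) (hN₁ N (by omega)))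
    refine sum_congr rfl fun n _ => ?_
    rw [norm_mul, norm_ee, mul_one, Complex.norm_real, Real.norm_eq_abs,
      abs_of_nonneg ArithmeticFunction.vonMangoldt_nonneg]
  have h4 : ∑ p ∈ (Ioc (2 ^ k) (2 ^ (k + 1))).filter Nat.Prime, ((v p : ℝ) : ℂ) * ee ((p : ℝ) ^ d * θ) =
      ((1 / (N * k) : ℝ) : ℂ) *
        ∑ p ∈ (Ioc N (2 * N)).filter Nat.Prime, ((Real.log p : ℝ) : ℂ) * ee (θ * (p : ℝ) ^ d) := by
    rw [mul_sum, e0, ← hN]
    refine sum_congr rfl fun p hp => ?_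
    rw [mem_filter, mem_Ioc] at hp
    rw [v_blk (k := k) (by omega) (by omega), ← hNr, mul_comm θ, ← mul_assoc, ← Complex.ofReal_mul]
    congr 2
    ring
  have h5 : ‖∑ p ∈ (Ioc N (2 * N)).filter Nat.Prime, ((Real.log p : ℝ) : ℂ) * ee (θ * (p : ℝ) ^ d)‖ ≤ ε * N := by
    rw [h2]
    refine (norm_sub_le _ _).trans ?_
    linarith
  rw [h4, norm_mul, Complex.norm_real, Real.norm_eq_abs, abs_of_nonneg (by positivity)]
  calc 1 / ((N : ℝ) * k) * _ ≤ 1 / ((N : ℝ) * k) * (ε * N) := mul_le_mul_of_nonneg_left h5 (by positivity)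
    _ = ε / k := by field_simp

/-- finitely many characters -/
theorem eqds (hPW : Pool.Agent.Helper44K9.FU.S_PW) (hCH : Pool.Agent.Helper44K9.FU.S_CHB) (d : ℕ) (hd : 1 ≤ d)
    (S : Finset ℤ) (ε : ℝ)
    (hε : 0 < ε) : ∃ Q : ℕ, ∀ τ : ℝ, 0 < τ → ∀ (z : ℕ) (A : ℝ), ∃ I : Finset ℕ,
      (∀ p ∈ I, p.Prime ∧ z < p) ∧ 0 < ∑ p ∈ I, v p ∧ (∀ p ∈ I, A * v p ≤ (∑ p ∈ I, v p) * (1 / (p : ℝ))) ∧
      ∀ θ ∉ Mj Q τ, ∀ m ∈ S, m ≠ 0 →
        ‖∑ p ∈ I, ((v p : ℝ) : ℂ) * (fourier (m * ((p ^ d : ℕ) : ℤ)) θ : ℂ)‖ ≤ ε * ∑ p ∈ I, v p := by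
  obtain ⟨⟨b, hb, k₀, hk₀⟩, -⟩ := hCH
  obtain ⟨C, hC1, hWC⟩ := wpd hPW d hd (b / 2 * ε) (by positivity)
  refine ⟨C * ∑ m ∈ S, m.natAbs, fun τ hτ z A => ?_⟩
  obtain ⟨K, hK⟩ := hWC τ hτ
  obtain ⟨k₁, hk₁0, hk₁1, hk₁K, hk₁z⟩ : ∃ k₁ : ℕ, k₀ ≤ k₁ ∧ 1 ≤ k₁ ∧ K ≤ k₁ ∧ z ≤ 2 ^ k₁ := by
    refine ⟨k₀ + K + z + 1, by omega, by omega, by omega, ?_⟩
    exact le_trans (by omega) (Nat.lt_two_pow_self (n := k₀ + K + z + 1)).le
  obtain ⟨k₂, hk₂, hdiv⟩ : ∃ k₂ : ℕ, k₁ ≤ k₂ ∧ 3 * |A| + 1 ≤ b / 2 * ∑ k ∈ Ico k₁ k₂, 1 / (k : ℝ) := by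
    have hb2 : 0 < b / 2 := by positivity
    have h1 := Real.tendsto_sum_range_one_div_nat_succ_atTop
    obtain ⟨M, hM⟩ := (h1.eventually_ge_atTop
      ((3 * |A| + 1) / (b / 2) + ∑ k ∈ range k₁, 1 / ((k : ℝ)))).exists
    refine ⟨max k₁ (M + 1), le_max_left _ _, ?_⟩
    have h2 : ∑ i ∈ range M, 1 / ((i : ℝ) + 1) = ∑ k ∈ range (M + 1), 1 / (k : ℝ) := by
      rw [sum_range_succ' (fun k : ℕ => 1 / (k : ℝ)) M]
      push_cast; simp
    rw [h2] at hM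
    have h3 : ∑ k ∈ range (M + 1), 1 / (k : ℝ) ≤ ∑ k ∈ range (max k₁ (M + 1)), 1 / (k : ℝ) :=
      sum_le_sum_of_subset_of_nonneg (range_subset_range.2 (le_max_right _ _)) fun _ _ _ => by positivity
    have h4 : ∑ k ∈ Ico k₁ (max k₁ (M + 1)), 1 / (k : ℝ) =
        ∑ k ∈ range (max k₁ (M + 1)), 1 / (k : ℝ) - ∑ k ∈ range k₁, 1 / (k : ℝ) :=
      sum_Ico_eq_sub _ (le_max_left _ _)
    rw [h4]
    have h5 : (3 * |A| + 1) / (b / 2) ≤
        ∑ k ∈ range (max k₁ (M + 1)), 1 / (k : ℝ) - ∑ k ∈ range k₁, 1 / (k : ℝ) := by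
      linarith
    rw [div_le_iff₀ hb2] at h5
    linarith
  set I : Finset ℕ := (Ioc (2 ^ k₁) (2 ^ k₂)).filter Nat.Prime with hI
  set L : ℝ := ∑ p ∈ I, v p with hL
  have hLb : b / 2 * ∑ k ∈ Ico k₁ k₂, 1 / (k : ℝ) ≤ L := by
    have hbl := blocks (fun p => ((v p : ℝ) : ℂ)) k₁ k₂ hk₂
    have h6 : L = ∑ k ∈ Ico k₁ k₂, ∑ p ∈ (Ioc (2 ^ k) (2 ^ (k + 1))).filter Nat.Prime, v p := by
      rw [hL, hI]
      exact_mod_cast hbl
    rw [h6, mul_sum]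
    refine sum_le_sum fun k hk => ?_
    rw [mem_Ico] at hk
    have h7 := hk₀ k (by omega)
    have h8 : 1 / 2 * ∑ p ∈ (Ioc (2 ^ k) (2 ^ (k + 1))).filter Nat.Prime, 1 / (p : ℝ) ≤
        ∑ p ∈ (Ioc (2 ^ k) (2 ^ (k + 1))).filter Nat.Prime, v p := by
      rw [mul_sum]
      refine sum_le_sum fun p hp => ?_
      rw [mem_filter, mem_Ioc] at hp
      exact v_ge (by omega) hp.1.1 hp.1.2
    have h9 : b / 2 * (1 / (k : ℝ)) = 1 / 2 * (b / k) := by ring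
    rw [h9]
    linarith
  have hLA : 3 * |A| + 1 ≤ L := hdiv.trans hLb
  refine ⟨I, ?_, by linarith [abs_nonneg A], ?_, fun θ hθ m hmS hm => ?_⟩
  · intro p hp
    rw [hI, mem_filter, mem_Ioc] at hp
    exact ⟨hp.2, lt_of_le_of_lt hk₁z hp.1.1⟩
  · intro p hp
    rw [hI, mem_filter, mem_Ioc] at hp
    have h2p : 0 < 2 ^ k₁ := by positivity
    obtain ⟨k, hkp1, hkp2⟩ : ∃ k : ℕ, 2 ^ k < p ∧ p ≤ 2 ^ (k + 1) := by
      refine ⟨Nat.log 2 (p - 1), ?_, ?_⟩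
      · have := Nat.pow_log_le_self 2 (x := p - 1) (by omega)
        omega
      · have := Nat.lt_pow_succ_log_self (b := 2) (by norm_num) (p - 1)
        simp only [Nat.succ_eq_add_one] at this
        omega
    have hk : 1 ≤ k := by
      by_contra h0
      have : k = 0 := by omega
      subst this
      have h3 : 2 ^ 1 ≤ 2 ^ k₁ := Nat.pow_le_pow_right (by norm_num) hk₁1
      norm_num at hkp2 h3
      omega
    have hv := v_le hk hkp1 hkp2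
    have hp0 : (0 : ℝ) < p := by exact_mod_cast (by omega : 0 < p)
    calc A * v p ≤ |A| * v p := mul_le_mul_of_nonneg_right (le_abs_self _) (v_nn p)
      _ ≤ |A| * (3 / p) := mul_le_mul_of_nonneg_left hv (abs_nonneg _)
      _ = 3 * |A| * (1 / p) := by ring
      _ ≤ L * (1 / p) := mul_le_mul_of_nonneg_right (by linarith) (by positivity)
  obtain ⟨α, rfl⟩ := QuotientAddGroup.mk_surjective θ
  have hα : ∀ q : ℕ, 1 ≤ q → q ≤ C * m.natAbs → ∀ a : ℤ, τ < |q * α - a| := by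
    intro q hq1 hqC a
    by_contra hcon
    push Not at hcon
    apply hθ
    refine ⟨q, hq1, hqC.trans (Nat.mul_le_mul_left _ ?_), ?_⟩
    · exact single_le_sum (f := fun j : ℤ => j.natAbs) (fun _ _ => Nat.zero_le _) hmS
    have h1 : q • ((α : ℝ) : UnitAddCircle) = ((q * α : ℝ) : UnitAddCircle) := by
      rw [← AddCircle.coe_nsmul]
      simp
    have h2 := norm_coe_le (q * α) a
    rw [← h1] at h2
    exact h2.trans hcon
  have e1 : ∑ p ∈ I, ((v p : ℝ) : ℂ) * (fourier (m * ((p ^ d : ℕ) : ℤ)) ((α : ℝ) : UnitAddCircle) : ℂ) =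
      ∑ k ∈ Ico k₁ k₂, ∑ p ∈ (Ioc (2 ^ k) (2 ^ (k + 1))).filter Nat.Prime,
        ((v p : ℝ) : ℂ) * ee ((p : ℝ) ^ d * (m * α)) := by
    rw [← blocks (fun p => ((v p : ℝ) : ℂ) * ee ((p : ℝ) ^ d * (m * α))) k₁ k₂ hk₂]
    refine sum_congr rfl fun p _ => ?_
    rw [Pool.Agent.Helper94K9.OP.MajL.fourier_ee]
    congr 2
    push_cast
    ring
  have e2 : ‖∑ p ∈ I, ((v p : ℝ) : ℂ) * (fourier (m * ((p ^ d : ℕ) : ℤ)) ((α : ℝ) : UnitAddCircle) : ℂ)‖ ≤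
      ε * L := by
    rw [e1]
    calc ‖∑ k ∈ Ico k₁ k₂, ∑ p ∈ (Ioc (2 ^ k) (2 ^ (k + 1))).filter Nat.Prime,
          ((v p : ℝ) : ℂ) * ee ((p : ℝ) ^ d * (m * α))‖
        ≤ ∑ k ∈ Ico k₁ k₂, b / 2 * ε / k := by
          refine norm_sum_le_of_le _ fun k hk => ?_
          rw [mem_Ico] at hk
          refine hK k (by omega) (m * α) fun q hq1 hqC a' => ?_
          have h1 := hα (q * m.natAbs) (Nat.mul_pos hq1 (Int.natAbs_pos.2 hm)) (Nat.mul_le_mul_right _ hqC)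
            (if 0 ≤ m then a' else -a')
          have h5 : |((q * m.natAbs : ℕ) : ℝ) * α - ((if 0 ≤ m then a' else -a' : ℤ) : ℝ)| =
              |q * (m * α) - a'| := by
            have h6 : ((m.natAbs : ℕ) : ℝ) = ((|m| : ℤ) : ℝ) := by
              rw [Int.abs_eq_natAbs, Int.cast_natCast]
            split_ifs with hj1
            · push_cast
              rw [h6, abs_of_nonneg hj1]
              congr 1; ring
            · push Not at hj1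
              push_cast
              rw [h6, abs_of_neg hj1]
              push_cast
              rw [show (q : ℝ) * -(m : ℝ) * α - -(a' : ℝ) = -(q * (m * α) - a') by ring, abs_neg]
          rwa [h5] at h1
      _ = ε * (b / 2 * ∑ k ∈ Ico k₁ k₂, 1 / (k : ℝ)) := by
          rw [mul_sum, mul_sum]
          exact sum_congr rfl fun k _ => by ring
      _ ≤ ε * L := mul_le_mul_of_nonneg_left hLb hε.le
  exact e2

end EqpL

open EqpL Pool.Agent.Helper94K9.OP.ParL in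
theorem eqp (hPW : Pool.Agent.Helper44K9.FU.S_PW) (hCH : Pool.Agent.Helper44K9.FU.S_CHB) : S_EQP := by
  intro d φ ε hd hε
  set φc : C(UnitAddCircle, ℂ) := ⟨fun θ => ((φ θ : ℝ) : ℂ), Complex.continuous_ofReal.comp (map_continuous φ)⟩ with hφc
  obtain ⟨c, hc⟩ := Pool.Agent.Helper44K9.FU.TrigL.approx φc (ε / 4) (by positivity)
  set T : ℝ := ∑ j ∈ c.support, ‖c j‖ + 1 with hT
  have hT0 : 0 < T := by
    have : 0 ≤ ∑ j ∈ c.support, ‖c j‖ := sum_nonneg fun _ _ => norm_nonneg _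
    linarith
  obtain ⟨Q, hQ⟩ := eqds hPW hCH d hd c.support (ε / (4 * T)) (by positivity)
  refine ⟨Q, fun τ hτ z A => ?_⟩
  obtain ⟨I, hI1, hI0, hI2, hI3⟩ := hQ τ hτ z A
  set V : ℝ := ∑ p ∈ I, v p with hV
  have hw0 : ∀ p, 0 ≤ v p / V := fun p => div_nonneg (v_nn p) hI0.le
  have hW1 : ∑ p ∈ I, v p / V = 1 := by
    rw [← sum_div, ← hV, div_self hI0.ne']
  refine ⟨I, fun p => v p / V, hI1, hw0, hW1, ?_, fun θ hθ => ?_⟩
  · intro p hp
    have h := hI2 p hp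
    rw [← mul_div_assoc, div_le_iff₀ hI0]
    linarith
  have hI3' : ∀ m ∈ c.support, m ≠ 0 →
      ‖∑ p ∈ I, ((v p / V : ℝ) : ℂ) * (fourier (m * ((p ^ d : ℕ) : ℤ)) θ : ℂ)‖ ≤ ε / (4 * T) := by
    intro m hmS hm
    have h := hI3 θ hθ m hmS hm
    have e : ∑ p ∈ I, ((v p / V : ℝ) : ℂ) * (fourier (m * ((p ^ d : ℕ) : ℤ)) θ : ℂ) =
        ((1 / V : ℝ) : ℂ) * ∑ p ∈ I, ((v p : ℝ) : ℂ) * (fourier (m * ((p ^ d : ℕ) : ℤ)) θ : ℂ) := by
      rw [mul_sum]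
      refine sum_congr rfl fun p _ => ?_
      rw [← mul_assoc, ← Complex.ofReal_mul]
      congr 2
      ring
    rw [e, norm_mul, Complex.norm_real, Real.norm_eq_abs, abs_of_nonneg (by positivity), one_div,
      inv_mul_le_iff₀ hI0, mul_comm V]
    exact h
  set P : UnitAddCircle → ℂ := fun z => ∑ j ∈ c.support, c j * fourier j z with hP
  have hPc : Continuous P := continuous_finsetSum _ fun j _ => continuous_const.mul (map_continuous (fourier j))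
  have hc0 : ‖c 0 - ((∫ γ : UnitAddCircle, φ γ : ℝ) : ℂ)‖ ≤ ε / 4 := by
    have h1 := Pool.Agent.Helper44K9.FU.TrigL.mean c
    have h2 : c 0 - ((∫ γ : UnitAddCircle, φ γ : ℝ) : ℂ) = ∫ γ : UnitAddCircle, (P γ - φc γ) := by
      rw [integral_sub (cont_int _ hPc) (cont_int _ (map_continuous φc)), ← h1]
      congr 1
      exact integral_ofReal.symm
    rw [h2]
    refine (norm_integral_le_of_norm_le_const (C := ε / 4) (Eventually.of_forall fun γ => hc γ)).trans ?_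
    have h : (volume : Measure UnitAddCircle).real Set.univ = 1 := by
      rw [measureReal_def, UnitAddCircle.measure_univ]
      rfl
    rw [h, mul_one]
  have hε4 : ∑ p ∈ I, ε / 4 * (v p / V) = ε / 4 := by rw [← mul_sum, hW1, mul_one]
  have hPz : ∀ p ∈ I, P ((p ^ d : ℕ) • θ) - c 0 =
      ∑ j ∈ c.support.filter (fun j => j ≠ 0), c j * (fourier (j * ((p ^ d : ℕ) : ℤ)) θ : ℂ) := by
    intro p _
    have h1 : ∀ j : ℤ, (fourier j ((p ^ d : ℕ) • θ) : ℂ) = fourier (j * ((p ^ d : ℕ) : ℤ)) θ := by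
      intro j
      rw [fourier_apply, fourier_apply]
      congr 2
      rw [mul_zsmul, natCast_zsmul]
    have h2 : P ((p ^ d : ℕ) • θ) = ∑ j ∈ c.support, c j * (fourier (j * ((p ^ d : ℕ) : ℤ)) θ : ℂ) := by
      rw [hP]
      simp only [h1]
    rw [h2, ← sum_filter_add_sum_filter_not c.support (fun j => j ≠ 0)]
    have h3 : ∑ j ∈ c.support.filter (fun j => ¬ j ≠ 0), c j * (fourier (j * ((p ^ d : ℕ) : ℤ)) θ : ℂ) = c 0 := by
      by_cases h0 : (0 : ℤ) ∈ c.support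
      · have h4 : c.support.filter (fun j => ¬ j ≠ 0) = {0} := by
          ext j
          simp only [mem_filter, ne_eq, not_not, mem_singleton]
          constructor
          · exact fun h => h.2
          · rintro rfl
            exact ⟨h0, rfl⟩
        rw [h4, sum_singleton]
        simp
      · have h4 : c.support.filter (fun j => ¬ j ≠ 0) = ∅ := by
          ext j
          simp only [mem_filter, ne_eq, not_not, notMem_empty, iff_false, not_and]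
          rintro hj rfl
          exact h0 hj
        rw [h4, sum_empty]
        exact (Finsupp.notMem_support_iff.1 h0).symm
    rw [h3, add_sub_cancel_right]
  have key : ‖∑ p ∈ I, ((v p / V : ℝ) : ℂ) *
      (((φ ((p ^ d : ℕ) • θ) : ℝ) : ℂ) - ((∫ γ : UnitAddCircle, φ γ : ℝ) : ℂ))‖ ≤ ε := by
    have e1 : ∑ p ∈ I, ((v p / V : ℝ) : ℂ) *
          (((φ ((p ^ d : ℕ) • θ) : ℝ) : ℂ) - ((∫ γ : UnitAddCircle, φ γ : ℝ) : ℂ)) =
        (∑ p ∈ I, ((v p / V : ℝ) : ℂ) * (((φ ((p ^ d : ℕ) • θ) : ℝ) : ℂ) - P ((p ^ d : ℕ) • θ))) +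
        (∑ p ∈ I, ((v p / V : ℝ) : ℂ) * (P ((p ^ d : ℕ) • θ) - c 0)) +
        (∑ p ∈ I, ((v p / V : ℝ) : ℂ) * (c 0 - ((∫ γ : UnitAddCircle, φ γ : ℝ) : ℂ))) := by
      rw [← sum_add_distrib, ← sum_add_distrib]
      refine sum_congr rfl fun p _ => ?_
      ring
    have b1 : ‖∑ p ∈ I, ((v p / V : ℝ) : ℂ) * (((φ ((p ^ d : ℕ) • θ) : ℝ) : ℂ) - P ((p ^ d : ℕ) • θ))‖ ≤ ε / 4 := by
      refine (norm_sum_le_of_le (n := fun p => ε / 4 * (v p / V)) _ fun p _ => ?_).trans hε4.le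
      rw [norm_mul, Complex.norm_real, Real.norm_eq_abs, abs_of_nonneg (hw0 p), mul_comm]
      refine mul_le_mul_of_nonneg_right ?_ (hw0 p)
      rw [norm_sub_rev]
      exact hc ((p ^ d : ℕ) • θ)
    have b3 : ‖∑ p ∈ I, ((v p / V : ℝ) : ℂ) * (c 0 - ((∫ γ : UnitAddCircle, φ γ : ℝ) : ℂ))‖ ≤ ε / 4 := by
      refine (norm_sum_le_of_le (n := fun p => ε / 4 * (v p / V)) _ fun p _ => ?_).trans hε4.le
      rw [norm_mul, Complex.norm_real, Real.norm_eq_abs, abs_of_nonneg (hw0 p), mul_comm]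
      exact mul_le_mul_of_nonneg_right hc0 (hw0 p)
    have b2 : ‖∑ p ∈ I, ((v p / V : ℝ) : ℂ) * (P ((p ^ d : ℕ) • θ) - c 0)‖ ≤ ε / 4 := by
      have e2 : ∑ p ∈ I, ((v p / V : ℝ) : ℂ) * (P ((p ^ d : ℕ) • θ) - c 0) =
          ∑ j ∈ c.support.filter (fun j => j ≠ 0), c j *
            ∑ p ∈ I, ((v p / V : ℝ) : ℂ) * (fourier (j * ((p ^ d : ℕ) : ℤ)) θ : ℂ) := by
        rw [sum_congr rfl fun p hp => by rw [hPz p hp]]
        simp only [mul_sum]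
        rw [sum_comm]
        refine sum_congr rfl fun j _ => sum_congr rfl fun p _ => ?_
        ring
      rw [e2]
      calc ‖∑ j ∈ c.support.filter (fun j => j ≠ 0), c j *
            ∑ p ∈ I, ((v p / V : ℝ) : ℂ) * (fourier (j * ((p ^ d : ℕ) : ℤ)) θ : ℂ)‖
          ≤ ∑ j ∈ c.support.filter (fun j => j ≠ 0), ‖c j‖ * (ε / (4 * T)) := by
            refine norm_sum_le_of_le _ fun j hj => ?_
            rw [mem_filter] at hj
            rw [norm_mul]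
            exact mul_le_mul_of_nonneg_left (hI3' j hj.1 hj.2) (norm_nonneg _)
        _ = (∑ j ∈ c.support.filter (fun j => j ≠ 0), ‖c j‖) * (ε / (4 * T)) := by rw [sum_mul]
        _ ≤ T * (ε / (4 * T)) := by
            refine mul_le_mul_of_nonneg_right ?_ (by positivity)
            have h1 : ∑ j ∈ c.support.filter (fun j => j ≠ 0), ‖c j‖ ≤ ∑ j ∈ c.support, ‖c j‖ :=
              sum_le_sum_of_subset_of_nonneg (filter_subset _ _) fun _ _ _ => norm_nonneg _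
            linarith
        _ = ε / 4 := by
            field_simp
    rw [e1]
    refine (norm_add_le _ _).trans ?_
    have h5 := norm_add_le (∑ p ∈ I, ((v p / V : ℝ) : ℂ) * (((φ ((p ^ d : ℕ) • θ) : ℝ) : ℂ) - P ((p ^ d : ℕ) • θ)))
      (∑ p ∈ I, ((v p / V : ℝ) : ℂ) * (P ((p ^ d : ℕ) • θ) - c 0))
    linarith
  have e3 : (((∑ p ∈ I, v p / V * φ ((p ^ d : ℕ) • θ)) - ∫ γ : UnitAddCircle, φ γ : ℝ) : ℂ) =
      ∑ p ∈ I, ((v p / V : ℝ) : ℂ) * (((φ ((p ^ d : ℕ) • θ) : ℝ) : ℂ) - ((∫ γ : UnitAddCircle, φ γ : ℝ) : ℂ)) := by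
    simp only [mul_sub, sum_sub_distrib, ← sum_mul]
    rw [← Complex.ofReal_sum, hW1, Complex.ofReal_sub, Complex.ofReal_sum]
    congr 1
    · refine sum_congr rfl fun p _ => ?_
      rw [Complex.ofReal_mul]
    · rw [Complex.ofReal_one, one_mul]
  rw [← e3, Complex.norm_real, Real.norm_eq_abs] at key
  exact key

end Pool.Agent.Helper94K9.OD
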