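import Pool.Agent.Helper94K9.OD.Lim

/-!
# Project OD: rational leading coefficients [FND]
-/

set_option autoImplicit false

namespace Pool.Agent.Helper94K9.OD

open Finset MeasureTheory Filter Topology
open Pool.Agent.Helper94K9.OP (X SM Mj shift seq IsMult Aperiodic IsFurstenbergSystem Val)

/-- near zero `F` is small, elsewhere it is at most a multiple of `t` -/
theorem F_lin (F : ℝ → ℝ) (hF : Continuous F) (hm : Monotone F) (h0 : F 0 = 0) (η : ℝ) (hη : 0 < η) :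
    ∃ C : ℝ, 0 ≤ C ∧ ∀ t ∈ Set.Icc (0 : ℝ) 1, F t ≤ η + C * t := by
  have hF1 : 0 ≤ F 1 := by
    have := hm (zero_le_one (α := ℝ))
    rwa [h0] at this
  obtain ⟨δ, hδ, h⟩ := Metric.continuousAt_iff.1 (hF.continuousAt (x := 0)) η hη
  refine ⟨F 1 / δ, by positivity, fun t ht => ?_⟩
  rcases lt_or_ge t δ with h1 | h1
  · have h2 := h (show dist t 0 < δ by rw [Real.dist_eq, sub_zero, abs_of_nonneg ht.1]; exact h1)
    rw [h0, Real.dist_eq, sub_zero] at h2
    have h3 := (abs_lt.1 h2).2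
    have h4 : 0 ≤ F 1 / δ * t := mul_nonneg (by positivity) ht.1
    linarith
  · have h2 : F t ≤ F 1 := hm ht.2
    have h3 : F 1 ≤ F 1 / δ * t := by
      rw [div_mul_eq_mul_div, le_div_iff₀ hδ]
      exact mul_le_mul_of_nonneg_left h1 hF1
    linarith

open LimL in
theorem fnd (hB : S_BAS) (hTor : S_TOR) (μ : Measure Pool.Agent.Helper94K9.OP.X) [IsProbabilityMeasure μ] (d : ℕ)
    (hd : 2 ≤ d) (F : ℝ → ℝ) (hF : Continuous F) (hm : Monotone F) (h0 : F 0 = 0)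
    (hlow : Tendsto (fun L : ℕ => ∫ x, SD (d - 1) Set.univ L x ∂μ) atTop (𝓝 0)) (Q : ℕ) (s : ℝ)
    (hs : Tendsto (fun L : ℕ => ∫ x, F (SD d {θ | ∃ q : ℕ, 1 ≤ q ∧ q ≤ Q ∧ q • θ = 0} L x) ∂μ) atTop (𝓝 s)) :
    s ≤ 0 := by
  have hd1 : 1 ≤ d := by omega
  have hd2 : 1 ≤ d - 1 := by omega
  have hset : {θ : UnitAddCircle | ∃ q : ℕ, 1 ≤ q ∧ q ≤ Q ∧ q • θ = 0} = Mj Q 0 := by
    ext θ
    unfold Mj
    simp only [Set.mem_setOf_eq]
    constructor
    · rintro ⟨q, h1, h2, h3⟩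
      exact ⟨q, h1, h2, by rw [h3, norm_zero]⟩
    · rintro ⟨q, h1, h2, h3⟩
      exact ⟨q, h1, h2, norm_le_zero_iff.1 h3⟩
  rw [hset] at hs
  refine le_of_forall_pos_le_add fun η hη => ?_
  obtain ⟨C, hC, hFC⟩ := F_lin F hF hm h0 η hη
  have hb : ∀ L : ℕ, ∫ x, F (SD d (Mj Q 0) L x) ∂μ ≤ η + C * Q * ∫ x, SD (d - 1) Set.univ L x ∂μ := by
    intro L
    have hi : Integrable (fun x => SD (d - 1) Set.univ L x) μ := F_int hB hd2 (fun t => t) continuous_id _ L
    have h1 : ∫ x, F (SD d (Mj Q 0) L x) ∂μ ≤ ∫ x, (η + C * Q * SD (d - 1) Set.univ L x) ∂μ := by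
      refine integral_mono (F_int hB hd1 F hF _ L) ((integrable_const _).add (hi.const_mul _)) fun x => ?_
      have h2 := hFC _ ⟨sd_nn hB hd1 (Mj Q 0) L x, sd_le hB hd1 _ L x⟩
      have h3 := mul_le_mul_of_nonneg_left (hTor d hd Q L x) hC
      have h4 : C * ((Q : ℝ) * SD (d - 1) Set.univ L x) = C * Q * SD (d - 1) Set.univ L x := by ring
      simp only
      linarith
    refine h1.trans (le_of_eq ?_)
    rw [integral_add (integrable_const _) (hi.const_mul _), integral_const, integral_const_mul]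
    simp
  have hlim := (hlow.const_mul (C * (Q : ℝ))).const_add η
  rw [mul_zero, add_zero] at hlim
  rw [zero_add]
  exact le_of_tendsto_of_tendsto' hs hlim hb

end Pool.Agent.Helper94K9.OD
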