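import Pool.Agent.Helper94K9.OD.Stm
import Pool.Agent.Helper94K9.OP.Key

/-! [KED]: the inequality of the means over a Furstenberg system, polynomial phases (model: `kef` in OP/Kef.lean). -/

set_option autoImplicit false

namespace Pool.Agent.Helper94K9.OD

open Finset MeasureTheory Filter Topology Polynomial
open Pool.Agent.H807R2.Dav (ee)
open Pool.Agent.Helper94K9.OP (X SM Mj shift seq IsMult Aperiodic IsFurstenbergSystem Val)
open Pool.Agent.Helper94K9.OP.KeyL (rf sm)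

namespace KedL

theorem val_eq (f : ℕ → Val) (n h : ℕ) (hh : 1 ≤ h) :
    ((shift (n : ℤ) (seq f) (h : ℤ) : Val) : ℝ) = rf f (n + h) := by
  unfold shift Pool.Agent.Helper94K9.OP.seq rf
  have e1 : (1 : ℤ) ≤ (h : ℤ) + n := by omega
  have e2 : ((h : ℤ) + n).toNat = n + h := by omega
  simp only [if_pos e1, e2]

theorem cf_eq (f : ℕ → Val) (n L : ℕ) (P : ℝ[X]) :
    cf (rf f) n L P = cx L (shift (n : ℤ) (seq f)) (P.comp (Polynomial.X + C (n : ℝ))) := by
  unfold cf cx Pool.Agent.Helper44K9.FU.W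
  have h1 : Ioc n (n + L) = (Icc 1 L).image (fun h => n + h) := by
    ext x
    simp only [mem_Ioc, mem_image, mem_Icc]
    constructor
    · intro hx
      exact ⟨x - n, by omega, by omega⟩
    · rintro ⟨h, hh, rfl⟩
      omega
  rw [h1, sum_image (fun a _ b _ hab => by simpa using hab)]
  congr 2
  refine sum_congr rfl fun h hh => ?_
  rw [val_eq f n h (mem_Icc.1 hh).1, eval_comp, eval_add, eval_X, eval_C]
  congr 3
  push_cast
  ring

theorem mem_PU {d : ℕ} {U : Set UnitAddCircle} {P : ℝ[X]} (hP : P ∈ PU d U) (r : ℝ) :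
    P.comp (Polynomial.X + C r) ∈ PU d U ∧ (P.comp (Polynomial.X + C r)).coeff d = P.coeff d := by
  have h1 : (P.comp (Polynomial.X + C r)).natDegree ≤ d := by
    refine (natDegree_comp_le).trans ?_
    rw [natDegree_X_add_C, mul_one]
    exact hP.1
  have h2 : (P.comp (Polynomial.X + C r)).coeff d = P.coeff d := by
    rcases hP.1.lt_or_eq with h | h
    · rw [coeff_eq_zero_of_natDegree_lt h, coeff_eq_zero_of_natDegree_lt]
      refine lt_of_le_of_lt natDegree_comp_le ?_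
      rw [natDegree_X_add_C, mul_one]
      exact h
    · have h3 := coeff_comp_degree_mul_degree (p := P) (q := Polynomial.X + C r)
        (by rw [natDegree_X_add_C]; exact one_ne_zero)
      rw [natDegree_X_add_C, mul_one, leadingCoeff_X_add_C, one_pow, mul_one, h] at h3
      rw [h3, leadingCoeff, h]
  exact ⟨⟨h1, by rw [h2]; exact hP.2⟩, h2⟩

theorem comp_comp_neg (P : ℝ[X]) (r : ℝ) :
    (P.comp (Polynomial.X + C r)).comp (Polynomial.X + C (-r)) = P := by
  rw [comp_assoc]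
  simp

theorem comp_comp_neg' (P : ℝ[X]) (r : ℝ) :
    (P.comp (Polynomial.X + C (-r))).comp (Polynomial.X + C r) = P := by
  rw [comp_assoc]
  simp

/-- the Taylor shift as a bijection -/
noncomputable def tay (d : ℕ) (U : Set UnitAddCircle) (r : ℝ) : PU d U ≃ PU d U where
  toFun P := ⟨(P : ℝ[X]).comp (Polynomial.X + C r), (mem_PU P.2 r).1⟩
  invFun P := ⟨(P : ℝ[X]).comp (Polynomial.X + C (-r)), (mem_PU P.2 (-r)).1⟩
  left_inv _ := Subtype.ext (comp_comp_neg _ _)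
  right_inv _ := Subtype.ext (comp_comp_neg' _ _)

theorem SF_eq (d : ℕ) (U : Set UnitAddCircle) (f : ℕ → Val) (n L : ℕ) :
    SF d U (rf f) n L = SD d U L (shift (n : ℤ) (seq f)) := by
  unfold SF SD
  exact (tay d U (n : ℝ)).iSup_congr fun P => (cf_eq f n L P).symm

theorem TF_eq (d : ℕ) (F : ℝ → ℝ) (φ : UnitAddCircle → ℝ) (f : ℕ → Val) (n L : ℕ) :
    TF d F φ (rf f) n L = TD d F φ L (shift (n : ℤ) (seq f)) := by
  unfold TF TD
  refine (tay d Set.univ (n : ℝ)).iSup_congr fun P => ?_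
  have h1 : ((tay d Set.univ (n : ℝ) P : ℝ[X])).coeff d = (P : ℝ[X]).coeff d := (mem_PU P.2 (n : ℝ)).2
  rw [h1, cf_eq]
  rfl

end KedL

open KedL in
theorem ked (hT : S_TRD) (hB : S_BAS) (hD : S_TDB) (_hI : Pool.Agent.Helper94K9.OP.S_INV) : S_KED := by
  intro f μ hf hμ d F φ ε hd hFc hFm hF0 h01 hε
  obtain ⟨hprob, N, hN, hlim⟩ := hμ
  obtain ⟨Q, hQ⟩ := hT d F φ ε hd hFc hFm hF0 h01 hε
  refine ⟨Q, fun τ hτ => ?_⟩
  obtain ⟨I, w, L₀, hIp, hw0, hw1, hmain⟩ := hQ τ hτ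
  refine ⟨I, w, L₀, hIp, hw0, hw1, fun L hL => ?_⟩
  have hSM := sm hf
  have hbd : ∀ n L' : ℕ, 0 ≤ TF d F φ (rf f) n L' ∧ TF d F φ (rf f) n L' ≤ F 1 := by
    intro n L'
    rw [TF_eq]
    have h := (hD d hd F φ Set.univ L' hFm hF0 h01 (fun θ h => absurd (Set.mem_univ θ) h)).2
      (shift (n : ℤ) (seq f))
    exact ⟨h.1, h.2.2⟩
  have hA := (hlim (fun x => F (SD d Set.univ L x)) (hFc.comp (hB d hd Set.univ L).1)).const_mul
    (∫ γ : UnitAddCircle, φ γ)
  have hBt : ∀ p : ℕ, Tendsto (fun j => (1 / Real.log (N j : ℝ)) * ∑ n ∈ Icc 1 (N j), (1 / (n : ℝ)) *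
      TD d F φ (L / p) (shift (n : ℤ) (seq f))) atTop (𝓝 (∫ x, TD d F φ (L / p) x ∂μ)) := fun p =>
    hlim (TD d F φ (L / p)) (hD d hd F φ Set.univ (L / p) hFm hF0 h01
      (fun θ h => absurd (Set.mem_univ θ) h)).1
  have hR := (hlim (fun x => F (SD d (Mj Q τ) L x)) (hFc.comp (hB d hd (Mj Q τ) L).1)).const_mul
    (∫ γ : UnitAddCircle, φ γ)
  have hH := hlim (fun _ => 1) continuous_const
  have hC : Tendsto (fun j => (1 / Real.log (N j : ℝ)) * ∑ p ∈ I, w p * (F 1 * (1 + Real.log p))) atTop (𝓝 0) := by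
    have h5 : Tendsto (fun j => Real.log (N j : ℝ)) atTop atTop :=
      Real.tendsto_log_atTop.comp (tendsto_natCast_atTop_atTop.comp hN)
    have h6 := (h5.inv_tendsto_atTop).mul_const (∑ p ∈ I, w p * (F 1 * (1 + Real.log p)))
    rw [zero_mul] at h6
    simpa [one_div] using h6
  have hsum := (((tendsto_finsetSum I fun p _ => (hBt p).const_mul (w p)).add hC).add hR).add (hH.const_mul ε)
  have hle : (∫ γ : UnitAddCircle, φ γ) * ∫ x, F (SD d Set.univ L x) ∂μ ≤
      ∑ p ∈ I, w p * ∫ x, TD d F φ (L / p) x ∂μ + 0 +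
        (∫ γ : UnitAddCircle, φ γ) * ∫ x, F (SD d (Mj Q τ) L x) ∂μ + ε * ∫ _x : X, (1 : ℝ) ∂μ := by
    refine le_of_tendsto_of_tendsto' hA hsum fun j => ?_
    have hlog : 0 ≤ 1 / Real.log (N j : ℝ) := by
      have := Real.log_natCast_nonneg (N j)
      positivity
    have h1 : ∀ n ∈ Icc 1 (N j), (∫ γ : UnitAddCircle, φ γ) *
        ((1 / (n : ℝ)) * F (SD d Set.univ L (shift (n : ℤ) (seq f)))) ≤
        (1 / (n : ℝ)) * (∑ p ∈ I, w p * TF d F φ (rf f) (n / p) (L / p)) +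
          (∫ γ : UnitAddCircle, φ γ) * ((1 / (n : ℝ)) * F (SD d (Mj Q τ) L (shift (n : ℤ) (seq f)))) +
            ε * ((1 / (n : ℝ)) * 1) := by
      intro n _
      have e1 := hmain L hL (rf f) hSM n
      rw [SF_eq, SF_eq] at e1
      have e2 := mul_le_mul_of_nonneg_left e1 (show (0 : ℝ) ≤ 1 / (n : ℝ) by positivity)
      rw [mul_add, mul_add] at e2
      linarith
    have h2 := sum_le_sum h1
    rw [sum_add_distrib, sum_add_distrib, ← mul_sum, ← mul_sum, ← mul_sum] at h2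
    have h3 : ∑ n ∈ Icc 1 (N j), (1 / (n : ℝ)) * (∑ p ∈ I, w p * TF d F φ (rf f) (n / p) (L / p)) ≤
        ∑ p ∈ I, w p * (∑ n ∈ Icc 1 (N j), (1 / (n : ℝ)) * TD d F φ (L / p) (shift (n : ℤ) (seq f))) +
          ∑ p ∈ I, w p * (F 1 * (1 + Real.log p)) := by
      have e1 : ∑ n ∈ Icc 1 (N j), (1 / (n : ℝ)) * (∑ p ∈ I, w p * TF d F φ (rf f) (n / p) (L / p)) =
          ∑ p ∈ I, w p * ∑ n ∈ Icc 1 (N j), (1 / (n : ℝ)) * TF d F φ (rf f) (n / p) (L / p) := by
        simp_rw [mul_sum]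
        rw [sum_comm]
        refine sum_congr rfl fun p _ => sum_congr rfl fun n _ => ?_
        ring
      rw [e1, ← sum_add_distrib]
      refine sum_le_sum fun p hp => ?_
      rw [← mul_add]
      refine mul_le_mul_of_nonneg_left ?_ (hw0 p)
      have e2 := Pool.Agent.Helper44K9.FU.DilL.inner_le p (N j) (hIp p hp).one_lt.le (F 1)
        (fun n => TF d F φ (rf f) n (L / p)) (fun n => hbd n (L / p))
      simp only [TF_eq] at e2 ⊢
      exact e2
    have h4 := mul_le_mul_of_nonneg_left (h2.trans (add_le_add (add_le_add h3 le_rfl) le_rfl)) hlog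
    rw [mul_left_comm] at h4
    refine h4.trans (le_of_eq ?_)
    have e5 : ∑ p ∈ I, w p * ((1 / Real.log (N j : ℝ)) * ∑ n ∈ Icc 1 (N j), (1 / (n : ℝ)) *
        TD d F φ (L / p) (shift (n : ℤ) (seq f))) = (1 / Real.log (N j : ℝ)) *
        ∑ p ∈ I, w p * ∑ n ∈ Icc 1 (N j), (1 / (n : ℝ)) * TD d F φ (L / p) (shift (n : ℤ) (seq f)) := by
      rw [mul_sum]
      refine sum_congr rfl fun p _ => ?_
      ring
    rw [e5]
    ring
  have h1 : ∫ _x : X, (1 : ℝ) ∂μ = 1 := by simp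
  rw [h1, mul_one, add_zero] at hle
  exact hle

end Pool.Agent.Helper94K9.OD
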