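import Pool.Agent.Helper94K9.OD.St5

/-! # Project OD: [KER], the tail of the Dirichlet kernel (helper71) -/

set_option autoImplicit false

namespace Pool.Agent.Helper94K9.OD

open Finset MeasureTheory Filter Topology
open Pool.Agent.H807R2.Dav (ee norm_ee ee_pow dd dd_ge dd_neg dd_nonneg)

namespace KerL

theorem fourier_ee (m : ℤ) (t : ℝ) :
    (fourier m ((t : ℝ) : UnitAddCircle) : ℂ) = ee (m * t) := by
  rw [fourier_coe_apply]
  unfold ee
  congr 1
  push_cast
  ring

theorem dk_bound (L : ℕ) (x : ℝ) (hx : |x| ≤ 1 / 2) (hx0 : x ≠ 0) :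
    ‖DK L ((x : ℝ) : UnitAddCircle)‖ ^ 2 ≤ 1 / 4 * x ^ (-2 : ℤ) := by
  have h0 : DK L ((x : ℝ) : UnitAddCircle) = ∑ m ∈ Ico 1 (L + 1), ee (m * x) := by
    unfold DK
    refine sum_congr ?_ fun h _ => ?_
    · ext h
      simp only [mem_Icc, mem_Ico]
      omega
    · rw [fourier_ee]
      push_cast
      rfl
  have h1 : 4 * |x| ≤ dd x := by
    have h2 := dd_ge (abs_nonneg x) (by linarith)
    rw [min_eq_left (by linarith)] at h2
    have h3 : dd |x| = dd x := by
      rcases abs_cases x with ⟨h, _⟩ | ⟨h, _⟩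
      · rw [h]
      · rw [h, dd_neg]
    rwa [h3] at h2
  obtain ⟨N, hN⟩ : ∃ N, N = ‖DK L ((x : ℝ) : UnitAddCircle)‖ := ⟨_, rfl⟩
  have hN0 : 0 ≤ N := by rw [hN]; exact norm_nonneg _
  have h2 : dd x * N ≤ 2 := by
    rw [hN, h0]
    have h3 : (1 - ee x) * ∑ m ∈ Ico 1 (L + 1), ee (m * x) = ee x ^ 1 - ee x ^ (L + 1) := by
      simp only [ee_pow]
      have := geom_sum_Ico_mul (ee x) (show 1 ≤ L + 1 by omega)
      linear_combination -this
    unfold dd
    rw [← norm_mul, h3]
    refine (norm_sub_le _ _).trans ?_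
    rw [norm_pow, norm_pow, norm_ee]
    norm_num
  have hpos : 0 < |x| := abs_pos.2 hx0
  have h3 : N * (2 * |x|) ≤ 1 := by nlinarith
  have h4 : (N * (2 * |x|)) ^ 2 ≤ 1 := pow_le_one₀ (by positivity) h3
  rw [mul_pow, mul_pow, sq_abs] at h4
  have h5 : (1 / 4 : ℝ) * x ^ (-2 : ℤ) = 1 / (4 * x ^ 2) := by
    rw [zpow_neg]
    norm_cast
    rw [one_div, one_div, mul_inv]
  have hx2 : 0 < x ^ 2 := by positivity
  rw [← hN, h5, le_div_iff₀ (by positivity)]
  linarith

end KerL

open KerL in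
theorem ker_ : S_KER := by
  intro L δ hδ
  have hDc : Continuous (DK L) := by
    unfold DK
    exact continuous_finsetSum _ fun h _ => (fourier (h : ℤ)).continuous
  set f : UnitAddCircle → ℝ := fun φ => ‖DK L φ‖ ^ 2 with hf
  have hfc : Continuous f := hDc.norm.pow 2
  have hf0 : ∀ φ, 0 ≤ f φ := fun φ => by positivity
  set S : Set UnitAddCircle := {φ | δ < ‖φ‖} with hS
  have hSo : IsOpen S := isOpen_lt continuous_const continuous_norm
  have hSm : MeasurableSet S := hSo.measurableSet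
  by_cases hδ2 : 1 / 2 ≤ δ
  · have hSe : S = ∅ := by
      rw [Set.eq_empty_iff_forall_notMem]
      intro φ hφ
      have h1 : δ < ‖φ‖ := hφ
      have h2 := AddCircle.norm_le_half_period (1 : ℝ) (x := φ) one_ne_zero
      rw [abs_one] at h2
      linarith
    rw [hSe]
    simp only [Measure.restrict_empty, integral_zero_measure]
    positivity
  · push Not at hδ2
    rw [← integral_indicator hSm, ← UnitAddCircle.intervalIntegral_preimage (-(1 / 2))
      (S.indicator f)]
    have e : (-(1 / 2) + 1 : ℝ) = 1 / 2 := by norm_num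
    rw [e]
    have hT : IsOpen {x : ℝ | ((x : ℝ) : UnitAddCircle) ∈ S} :=
      hSo.preimage (AddCircle.continuous_mk' (1 : ℝ))
    have hg : Continuous fun x : ℝ => f ((x : ℝ) : UnitAddCircle) :=
      hfc.comp (AddCircle.continuous_mk' (1 : ℝ))
    have hFe : (fun x : ℝ => S.indicator f ((x : ℝ) : UnitAddCircle)) =
        {x : ℝ | ((x : ℝ) : UnitAddCircle) ∈ S}.indicator
          fun x : ℝ => f ((x : ℝ) : UnitAddCircle) := by
      funext x
      by_cases h : ((x : ℝ) : UnitAddCircle) ∈ S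
      · exact (Set.indicator_of_mem h f).trans
          (Set.indicator_of_mem (s := {x : ℝ | ((x : ℝ) : UnitAddCircle) ∈ S}) h
            fun x : ℝ => f ((x : ℝ) : UnitAddCircle)).symm
      · exact (Set.indicator_of_notMem h f).trans
          (Set.indicator_of_notMem (s := {x : ℝ | ((x : ℝ) : UnitAddCircle) ∈ S}) h
            fun x : ℝ => f ((x : ℝ) : UnitAddCircle)).symm
    have hFi : ∀ a b : ℝ, IntervalIntegrable
        (fun x : ℝ => S.indicator f ((x : ℝ) : UnitAddCircle)) volume a b := by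
      intro a b
      rw [hFe]
      have h := hg.intervalIntegrable (μ := volume) a b
      exact ⟨h.1.indicator hT.measurableSet, h.2.indicator hT.measurableSet⟩
    have hle : ∀ x : ℝ, |x| ≤ 1 / 2 → x ≠ 0 →
        S.indicator f ((x : ℝ) : UnitAddCircle) ≤ 1 / 4 * x ^ (-2 : ℤ) := by
      intro x hx hx0
      refine le_trans ?_ (dk_bound L x hx hx0)
      exact Set.indicator_le_self' (fun _ _ => hf0 _) _
    have hmid : ∀ x : ℝ, |x| ≤ δ → S.indicator f ((x : ℝ) : UnitAddCircle) = 0 := by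
      intro x hx
      refine Set.indicator_of_notMem ?_ _
      intro h
      have h1 : δ < ‖((x : ℝ) : UnitAddCircle)‖ := h
      rw [(AddCircle.norm_coe_eq_abs_iff (1 : ℝ) one_ne_zero).2 (by rw [abs_one]; linarith)] at h1
      linarith
    rw [← intervalIntegral.integral_add_adjacent_intervals (hFi (-(1 / 2)) δ) (hFi δ (1 / 2)),
      ← intervalIntegral.integral_add_adjacent_intervals (hFi (-(1 / 2)) (-δ)) (hFi (-δ) δ)]
    have hn1 : (0 : ℝ) ∉ Set.uIcc (-(1 / 2)) (-δ) := by
      rw [Set.uIcc_of_le (by linarith)]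
      rintro ⟨_, h⟩
      linarith
    have hn3 : (0 : ℝ) ∉ Set.uIcc δ (1 / 2) := by
      rw [Set.uIcc_of_le (by linarith)]
      rintro ⟨h, _⟩
      linarith
    have b1 : ∫ x in (-(1 / 2) : ℝ)..(-δ), S.indicator f ((x : ℝ) : UnitAddCircle) ≤
        ∫ x in (-(1 / 2) : ℝ)..(-δ), 1 / 4 * x ^ (-2 : ℤ) := by
      refine intervalIntegral.integral_mono_on (by linarith) (hFi _ _)
        ((intervalIntegral.intervalIntegrable_zpow (Or.inr hn1)).const_mul _) fun x hx => ?_
      obtain ⟨h1, h2⟩ := hx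
      exact hle x (abs_le.2 ⟨h1, by linarith⟩) (by linarith : x < 0).ne
    have b2 : ∫ x in (-δ)..δ, S.indicator f ((x : ℝ) : UnitAddCircle) = 0 := by
      rw [intervalIntegral.integral_congr (g := fun _ => (0 : ℝ))]
      · simp
      · intro x hx
        rw [Set.uIcc_of_le (by linarith)] at hx
        exact hmid x (abs_le.2 hx)
    have b3 : ∫ x in δ..(1 / 2), S.indicator f ((x : ℝ) : UnitAddCircle) ≤
        ∫ x in δ..(1 / 2), 1 / 4 * x ^ (-2 : ℤ) := by
      refine intervalIntegral.integral_mono_on (by linarith) (hFi _ _)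
        ((intervalIntegral.intervalIntegrable_zpow (Or.inr hn3)).const_mul _) fun x hx => ?_
      obtain ⟨h1, h2⟩ := hx
      exact hle x (abs_le.2 ⟨by linarith, h2⟩) (by linarith : 0 < x).ne'
    rw [intervalIntegral.integral_const_mul, integral_zpow (Or.inr ⟨by norm_num, hn1⟩)] at b1
    rw [intervalIntegral.integral_const_mul, integral_zpow (Or.inr ⟨by norm_num, hn3⟩)] at b3
    have c1 : (1 / 4 : ℝ) * (((-δ) ^ (-2 + 1 : ℤ) - (-(1 / 2)) ^ (-2 + 1 : ℤ)) /
        (((-2 : ℤ) : ℝ) + 1)) = 1 / (4 * δ) - 1 / 2 := by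
      have e1 : (-2 + 1 : ℤ) = -1 := by norm_num
      rw [e1, zpow_neg_one, zpow_neg_one]
      push_cast
      field_simp
      ring
    have c3 : (1 / 4 : ℝ) * (((1 / 2) ^ (-2 + 1 : ℤ) - δ ^ (-2 + 1 : ℤ)) /
        (((-2 : ℤ) : ℝ) + 1)) = 1 / (4 * δ) - 1 / 2 := by
      have e1 : (-2 + 1 : ℤ) = -1 := by norm_num
      rw [e1, zpow_neg_one, zpow_neg_one]
      push_cast
      field_simp
      ring
    rw [c1] at b1
    rw [c3] at b3
    have c : 1 / (2 * δ) = 1 / (4 * δ) + 1 / (4 * δ) := by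
      field_simp
      norm_num
    rw [b2, c]
    linarith

end Pool.Agent.Helper94K9.OD
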