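import Pool.Agent.Helper94K9.OD.Stm
import Pool.Agent.Helper94K9.OP.Opf

/-!
# Project OD: the limits exist, and are outer regular [LIM]
-/

set_option autoImplicit false

namespace Pool.Agent.Helper94K9.OD

open Finset MeasureTheory Filter Topology
open Pool.Agent.Helper94K9.OP (X SM Mj shift seq IsMult Aperiodic IsFurstenbergSystem Val)

namespace LimL

open Pool.Agent.Helper94K9.OP.KeyL Pool.Agent.Helper94K9.OP.InvL Pool.Agent.Helper94K9.OP.ExkL
  Pool.Agent.Helper94K9.OP.SubL Pool.Agent.Helper94K9.OP.OpnL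

variable {μ : Measure Pool.Agent.Helper94K9.OP.X} [IsProbabilityMeasure μ] {d : ℕ}

theorem sd_cont (hB : S_BAS) (hd : 1 ≤ d) (U : Set UnitAddCircle) (L : ℕ) : Continuous (SD d U L) := (hB d hd U L).1
theorem sd_nn (hB : S_BAS) (hd : 1 ≤ d) (U : Set UnitAddCircle) (L : ℕ) (x : Pool.Agent.Helper94K9.OP.X) :
    0 ≤ SD d U L x := ((hB d hd U L).2.1 x).1
theorem sd_le (hB : S_BAS) (hd : 1 ≤ d) (U : Set UnitAddCircle) (L : ℕ) (x : Pool.Agent.Helper94K9.OP.X) :
    SD d U L x ≤ 1 := ((hB d hd U L).2.1 x).2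
theorem sd_thick (hB : S_BAS) (hd : 1 ≤ d) (U : Set UnitAddCircle) (L : ℕ) (δ : ℝ) (hδ : 0 < δ)
    (x : Pool.Agent.Helper94K9.OP.X) : SD d (Metric.thickening δ U) L x ≤ SD d U L x + 2 * Real.pi * (L : ℝ) ^ d * δ :=
  (hB d hd U L).2.2.2.2.2 δ hδ x

theorem sd_mono (hB : S_BAS) (hd : 1 ≤ d) {U U' : Set UnitAddCircle} (h : U ⊆ U') (L : ℕ)
    (x : Pool.Agent.Helper94K9.OP.X) : SD d U L x ≤ SD d U' L x :=
  Real.iSup_le (fun P => (hB d hd U' L).2.2.1 x P ⟨P.2.1, h P.2.2⟩) (sd_nn hB hd U' L x)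

theorem F_int (hB : S_BAS) (hd : 1 ≤ d) (F : ℝ → ℝ) (hF : Continuous F) (U : Set UnitAddCircle)
    (L : ℕ) : Integrable (fun x => F (SD d U L x)) μ := by
  obtain ⟨C, hC⟩ := (isCompact_Icc (a := (0 : ℝ)) (b := 1)).exists_bound_of_continuousOn hF.continuousOn
  exact Integrable.of_bound ((hF.comp (sd_cont hB hd U L)).measurable.aestronglyMeasurable) C
    (Eventually.of_forall fun x => hC _ ⟨sd_nn hB hd U L x, sd_le hB hd U L x⟩)

theorem pow_add_le (hB : S_BAS) (hd : 1 ≤ d) (U : Set UnitAddCircle) (q L M : ℕ) (x : Pool.Agent.Helper94K9.OP.X) :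
    ((L + M : ℕ) : ℝ) * SD d U (L + M) x ^ q ≤ L * SD d U L x ^ q + M * SD d U M (shift (L : ℤ) x) ^ q := by
  have a0 := sd_nn hB hd U L x
  have b0 := sd_nn hB hd U M (shift (L : ℤ) x)
  rcases Nat.eq_zero_or_pos (L + M) with h | h
  · rw [h]
    simp only [Nat.cast_zero, zero_mul]
    positivity
  · have hL : (0 : ℝ) < ((L + M : ℕ) : ℝ) := by exact_mod_cast h
    have h1 := (hB d hd U L).2.2.2.1 M x
    have h2 : SD d U (L + M) x ≤ ((L : ℝ) / ((L + M : ℕ) : ℝ)) * SD d U L x +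
        ((M : ℝ) / ((L + M : ℕ) : ℝ)) * SD d U M (shift (L : ℤ) x) := by
      rw [div_mul_eq_mul_div, div_mul_eq_mul_div, ← add_div, le_div_iff₀ hL]
      linarith
    have h3 : SD d U (L + M) x ^ q ≤ (((L : ℝ) / ((L + M : ℕ) : ℝ)) * SD d U L x +
        ((M : ℝ) / ((L + M : ℕ) : ℝ)) * SD d U M (shift (L : ℤ) x)) ^ q :=
      pow_le_pow_left₀ (sd_nn hB hd U _ x) h2 q
    have hsum : (L : ℝ) / ((L + M : ℕ) : ℝ) + (M : ℝ) / ((L + M : ℕ) : ℝ) = 1 := by
      rw [← add_div, ← Nat.cast_add]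
      exact div_self hL.ne'
    have h4 := (convexOn_pow q (𝕜 := ℝ)).2 (Set.mem_Ici.2 a0) (Set.mem_Ici.2 b0)
      (show (0 : ℝ) ≤ (L : ℝ) / ((L + M : ℕ) : ℝ) by positivity)
      (show (0 : ℝ) ≤ (M : ℝ) / ((L + M : ℕ) : ℝ) by positivity) hsum
    simp only [smul_eq_mul] at h4
    have h5 := mul_le_mul_of_nonneg_left (h3.trans h4) hL.le
    have h6 : ((L + M : ℕ) : ℝ) * ((L : ℝ) / ((L + M : ℕ) : ℝ) * SD d U L x ^ q +
        (M : ℝ) / ((L + M : ℕ) : ℝ) * SD d U M (shift (L : ℤ) x) ^ q) =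
        L * SD d U L x ^ q + M * SD d U M (shift (L : ℤ) x) ^ q := by
      field_simp
    rw [h6] at h5
    exact h5

theorem lim_pow_le (hB : S_BAS) (hd : 1 ≤ d) (hinv : MeasurePreserving (shift 1) μ μ)
    (U : Set UnitAddCircle) (q : ℕ) : ∃ s : ℝ, Tendsto (fun L : ℕ => ∫ x, SD d U L x ^ q ∂μ) atTop (𝓝 s) ∧
      ∀ L : ℕ, 1 ≤ L → s ≤ ∫ x, SD d U L x ^ q ∂μ := by
  have hF : Continuous fun y : ℝ => y ^ q := continuous_pow q
  set u : ℕ → ℝ := fun L => L * ∫ x, SD d U L x ^ q ∂μ with hu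
  have hi2 : ∀ L M : ℕ, Integrable (fun x : Pool.Agent.Helper94K9.OP.X => (M : ℝ) * SD d U M (shift (L : ℤ) x) ^ q) μ := by
    intro L M
    have hc : Continuous fun x : Pool.Agent.Helper94K9.OP.X => (M : ℝ) * SD d U M (shift (L : ℤ) x) ^ q :=
      continuous_const.mul (((sd_cont hB hd U M).comp (shift_cont _)).pow q)
    refine Integrable.of_bound hc.measurable.aestronglyMeasurable M (Eventually.of_forall fun x => ?_)
    have h2 := sd_nn hB hd U M (shift (L : ℤ) x)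
    have h3 := sd_le hB hd U M (shift (L : ℤ) x)
    rw [Real.norm_eq_abs, abs_of_nonneg (by positivity)]
    exact mul_le_of_le_one_right (Nat.cast_nonneg M) (pow_le_one₀ h2 h3)
  have hsub : Subadditive u := by
    intro L M
    have h1 : ∫ x, ((L + M : ℕ) : ℝ) * SD d U (L + M) x ^ q ∂μ ≤
        ∫ x, (L * SD d U L x ^ q + M * SD d U M (shift (L : ℤ) x) ^ q) ∂μ :=
      integral_mono ((F_int hB hd _ hF U (L + M)).const_mul _) (((F_int hB hd _ hF U L).const_mul _).add (hi2 L M))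
        fun x => pow_add_le hB hd U q L M x
    rw [integral_const_mul, integral_add ((F_int hB hd _ hF U L).const_mul _) (hi2 L M), integral_const_mul,
      integral_const_mul, int_shift hinv (fun x => SD d U M x ^ q) ((sd_cont hB hd U M).pow q) L] at h1
    exact h1
  have hbdd : BddBelow (Set.range fun n => u n / n) := by
    refine ⟨0, ?_⟩
    rintro _ ⟨n, rfl⟩
    have : 0 ≤ ∫ x, SD d U n x ^ q ∂μ := integral_nonneg fun x => pow_nonneg (sd_nn hB hd U n x) q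
    simp only [hu]
    positivity
  have hlim := hsub.tendsto_lim hbdd
  refine ⟨hsub.lim, hlim.congr' ?_, fun L hL => ?_⟩
  · filter_upwards [eventually_ge_atTop 1] with L hL
    have hL' : (L : ℝ) ≠ 0 := by
      have : 0 < L := hL
      exact_mod_cast this.ne'
    simp only [hu]
    field_simp
  · have h1 := hsub.lim_le_div hbdd (show L ≠ 0 by omega)
    have hL' : (L : ℝ) ≠ 0 := by
      have : 0 < L := hL
      exact_mod_cast this.ne'
    have h2 : u L / L = ∫ x, SD d U L x ^ q ∂μ := by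
      simp only [hu]
      field_simp
    rwa [h2] at h1

theorem pow_conv (hB : S_BAS) (hd : 1 ≤ d) (hinv : MeasurePreserving (shift 1) μ μ)
    (K : Set UnitAddCircle) (q : ℕ) (t : Set UnitAddCircle → ℝ)
    (ht : ∀ U, Tendsto (fun L : ℕ => ∫ x, SD d U L x ^ q ∂μ) atTop (𝓝 (t U))) :
    Tendsto (fun k : ℕ => t (Metric.thickening (1 / ((k : ℝ) + 1)) K)) atTop (𝓝 (t K)) := by
  have hle : ∀ (U : Set UnitAddCircle) (L : ℕ), 1 ≤ L → t U ≤ ∫ x, SD d U L x ^ q ∂μ := by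
    intro U L hL
    obtain ⟨s, h1, h2⟩ := lim_pow_le hB hd hinv U q
    rw [tendsto_nhds_unique (ht U) h1]
    exact h2 L hL
  have hF : Continuous fun y : ℝ => y ^ q := continuous_pow q
  rw [Metric.tendsto_atTop]
  intro ε hε
  obtain ⟨L, hL1, hL2⟩ : ∃ L : ℕ, 1 ≤ L ∧ ∫ x, SD d K L x ^ q ∂μ < t K + ε / 2 :=
    ((eventually_ge_atTop 1).and ((ht K).eventually (gt_mem_nhds (show t K < t K + ε / 2 by linarith)))).exists
  obtain ⟨k₀, hk₀⟩ := exists_nat_gt ((q : ℝ) * (2 * Real.pi * (L : ℝ) ^ d) / (ε / 2))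
  refine ⟨k₀, fun k hk => ?_⟩
  have hkp : (0 : ℝ) < (k : ℝ) + 1 := by positivity
  have hδ : (0 : ℝ) < 1 / ((k : ℝ) + 1) := by positivity
  have hmono : t K ≤ t (Metric.thickening (1 / ((k : ℝ) + 1)) K) := by
    refine le_of_tendsto_of_tendsto' (ht K) (ht _) fun M => ?_
    exact integral_mono (F_int hB hd _ hF _ M) (F_int hB hd _ hF _ M) fun x =>
      pow_le_pow_left₀ (sd_nn hB hd _ _ _) (sd_mono hB hd (Metric.self_subset_thickening hδ K) M x) q
  have hpt : ∀ x : Pool.Agent.Helper94K9.OP.X, SD d (Metric.thickening (1 / ((k : ℝ) + 1)) K) L x ^ q ≤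
      SD d K L x ^ q + (q : ℝ) * (2 * Real.pi * (L : ℝ) ^ d * (1 / ((k : ℝ) + 1))) := by
    intro x
    have h1 := sd_thick hB hd K L (1 / ((k : ℝ) + 1)) hδ x
    have h2 := sd_mono hB hd (Metric.self_subset_thickening hδ K) L x
    set a := SD d (Metric.thickening (1 / ((k : ℝ) + 1)) K) L x with ha
    set b := SD d K L x with hb
    have ha1 : a ≤ 1 := sd_le hB hd _ _ _
    have hb0 : 0 ≤ b := sd_nn hB hd _ _ _
    have h3 := abs_pow_sub_pow_le a b q
    have h4 : max |a| |b| ≤ 1 := by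
      rw [abs_of_nonneg (hb0.trans h2), abs_of_nonneg hb0]
      exact max_le ha1 (h2.trans ha1)
    have h5 : max |a| |b| ^ (q - 1) ≤ 1 := pow_le_one₀ (le_max_of_le_left (abs_nonneg a)) h4
    have h6 : |a - b| * q * max |a| |b| ^ (q - 1) ≤ |a - b| * q * 1 :=
      mul_le_mul_of_nonneg_left h5 (by positivity)
    have h7 : |a - b| ≤ 2 * Real.pi * (L : ℝ) ^ d * (1 / ((k : ℝ) + 1)) := by
      rw [abs_of_nonneg (sub_nonneg.2 h2)]
      linarith
    have h8 : |a - b| * (q : ℝ) ≤ (2 * Real.pi * (L : ℝ) ^ d * (1 / ((k : ℝ) + 1))) * q :=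
      mul_le_mul_of_nonneg_right h7 (Nat.cast_nonneg q)
    have h9 := le_abs_self (a ^ q - b ^ q)
    linarith
  have hint : ∫ x, SD d (Metric.thickening (1 / ((k : ℝ) + 1)) K) L x ^ q ∂μ ≤
      ∫ x, SD d K L x ^ q ∂μ + (q : ℝ) * (2 * Real.pi * (L : ℝ) ^ d * (1 / ((k : ℝ) + 1))) := by
    refine (integral_mono (F_int hB hd _ hF _ L) ((F_int hB hd _ hF _ L).add (integrable_const _)) hpt).trans
      (le_of_eq ?_)
    simp only [Pi.add_apply]
    rw [integral_add (F_int hB hd _ hF _ L) (integrable_const _), integral_const]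
    simp
  have hsmall : (q : ℝ) * (2 * Real.pi * (L : ℝ) ^ d * (1 / ((k : ℝ) + 1))) < ε / 2 := by
    have h1 : (k₀ : ℝ) ≤ k := by exact_mod_cast hk
    have h2 : (q : ℝ) * (2 * Real.pi * (L : ℝ) ^ d) / (ε / 2) < (k : ℝ) + 1 := by linarith
    rw [div_lt_iff₀ (by positivity)] at h2
    have h3 : (q : ℝ) * (2 * Real.pi * (L : ℝ) ^ d * (1 / ((k : ℝ) + 1))) =
        (q : ℝ) * (2 * Real.pi * (L : ℝ) ^ d) / ((k : ℝ) + 1) := by
      ring
    rw [h3, div_lt_iff₀ hkp]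
    linarith
  have hfin := hle (Metric.thickening (1 / ((k : ℝ) + 1)) K) L hL1
  rw [Real.dist_eq, abs_lt]
  constructor <;> linarith

end LimL

open LimL in
theorem lim (hB : S_BAS) : S_LIM := by
  intro d hdd μ _ hinv F hF
  choose t ht ht' using fun (q : ℕ) (U : Set UnitAddCircle) => lim_pow_le (μ := μ) hB hdd hinv U q
  have hnear : ∀ ε : ℝ, 0 < ε → ∃ tP : Set UnitAddCircle → ℝ, ∃ G : ℝ → ℝ,
      (∀ U, Tendsto (fun L : ℕ => ∫ x, G (SD d U L x) ∂μ) atTop (𝓝 (tP U))) ∧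
      (∀ (U : Set UnitAddCircle) (L : ℕ), |∫ x, F (SD d U L x) ∂μ - ∫ x, G (SD d U L x) ∂μ| ≤ ε) ∧
      ∀ K, Tendsto (fun k : ℕ => tP (Metric.thickening (1 / ((k : ℝ) + 1)) K)) atTop (𝓝 (tP K)) := by
    intro ε hε
    obtain ⟨P, hP⟩ := exists_polynomial_near_of_continuousOn 0 1 F hF.continuousOn ε hε
    refine ⟨fun U => ∑ i ∈ range (P.natDegree + 1), P.coeff i * t i U, fun y => P.eval y, ?_, ?_, ?_⟩
    · intro U
      have h1 : ∀ L : ℕ, ∫ x, P.eval (SD d U L x) ∂μ =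
          ∑ i ∈ range (P.natDegree + 1), P.coeff i * ∫ x, SD d U L x ^ i ∂μ := by
        intro L
        simp only [Polynomial.eval_eq_sum_range]
        rw [integral_finsetSum _ fun i _ => (F_int hB hdd _ (continuous_pow i) U L).const_mul _]
        exact sum_congr rfl fun i _ => integral_const_mul _ _
      simp only [h1]
      exact tendsto_finsetSum _ fun i _ => (ht i U).const_mul _
    · intro U L
      rw [← integral_sub (F_int hB hdd F hF U L) (F_int hB hdd _ P.continuous U L), ← Real.norm_eq_abs]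
      refine (norm_integral_le_of_norm_le_const (C := ε) (Eventually.of_forall fun x => ?_)).trans ?_
      · rw [Real.norm_eq_abs, abs_sub_comm]
        exact (hP _ ⟨sd_nn hB hdd U L x, sd_le hB hdd U L x⟩).le
      · simp
    · intro K
      exact tendsto_finsetSum _ fun i _ => (pow_conv hB hdd hinv K i (t i) (ht i)).const_mul _
  -- the limits exist
  have hex : ∀ U, ∃ s : ℝ, Tendsto (fun L : ℕ => ∫ x, F (SD d U L x) ∂μ) atTop (𝓝 s) := by
    intro U
    refine cauchySeq_tendsto_of_complete ?_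
    rw [Metric.cauchySeq_iff]
    intro ε hε
    obtain ⟨tP, G, h1, h2, -⟩ := hnear (ε / 3) (by positivity)
    obtain ⟨N, hN⟩ := Metric.cauchySeq_iff.1 (h1 U).cauchySeq (ε / 3) (by positivity)
    refine ⟨N, fun m hm n hn => ?_⟩
    have h3 := hN m hm n hn
    rw [Real.dist_eq] at h3 ⊢
    have h4 := abs_le.1 (h2 U m)
    have h5 := abs_le.1 (h2 U n)
    have h6 := abs_lt.1 h3
    rw [abs_lt]
    constructor <;> linarith [h4.1, h4.2, h5.1, h5.2, h6.1, h6.2]
  choose s hs using hex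
  refine ⟨s, hs, fun K ε hε => ?_⟩
  obtain ⟨tP, G, h1, h2, h3⟩ := hnear (ε / 3) (by positivity)
  have hd' : ∀ U, |s U - tP U| ≤ ε / 3 := fun U =>
    le_of_tendsto ((hs U).sub (h1 U)).abs (Eventually.of_forall fun L => h2 U L)
  obtain ⟨k, hk⟩ := ((h3 K).eventually (gt_mem_nhds (show tP K < tP K + ε / 3 by linarith))).exists
  refine ⟨1 / ((k : ℝ) + 1), by positivity, ?_⟩
  have h4 := abs_le.1 (hd' K)
  have h5 := abs_le.1 (hd' (Metric.thickening (1 / ((k : ℝ) + 1)) K))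
  linarith [h4.1, h4.2, h5.1, h5.2]

end Pool.Agent.Helper94K9.OD
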