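import Pool.Agent.Helper94K9.OD.Lim
import Pool.Agent.Helper94K9.OP.Eqv

/-!
# Project OD: conclusion [OPD]
-/

set_option autoImplicit false

namespace Pool.Agent.Helper94K9.OD

open Finset MeasureTheory Filter Topology
open Pool.Agent.Helper94K9.OP (X SM Mj shift seq IsMult Aperiodic IsFurstenbergSystem Val)

namespace OpdL

theorem norm_coe_le (b : ℝ) : ‖((b : ℝ) : UnitAddCircle)‖ ≤ |b| := by
  rw [UnitAddCircle.norm_eq]
  have h := round_le b 0
  simpa using h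

theorem mj_sub (Q : ℕ) (δ : ℝ) (hδ : 0 < δ) :
    Mj Q (δ / 2) ⊆ Metric.thickening δ {θ : UnitAddCircle | ∃ q : ℕ, 1 ≤ q ∧ q ≤ Q ∧ q • θ = 0} := by
  rintro θ ⟨q, h1, h2, h3⟩
  obtain ⟨b, hb, hbn⟩ := Pool.Agent.Helper94K9.OP.EqvL.rep (q • θ)
  have hq : (0 : ℝ) < q := by exact_mod_cast h1
  have hq1 : (1 : ℝ) ≤ q := by exact_mod_cast h1
  rw [Metric.mem_thickening_iff]
  refine ⟨θ - (((b / q : ℝ)) : UnitAddCircle), ⟨q, h1, h2, ?_⟩, ?_⟩
  · have h4 : q • (((b / q : ℝ)) : UnitAddCircle) = ((b : ℝ) : UnitAddCircle) := by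
      rw [← AddCircle.coe_nsmul, nsmul_eq_mul, mul_div_cancel₀ _ hq.ne']
    rw [smul_sub, h4, hb, sub_self]
  · rw [dist_eq_norm, sub_sub_cancel]
    refine lt_of_le_of_lt (norm_coe_le _) ?_
    rw [abs_div, abs_of_pos hq]
    have h5 : |b| / q ≤ |b| := div_le_self (abs_nonneg _) hq1
    rw [hbn] at h5 ⊢
    linarith

end OpdL

open LimL OpdL Pool.Agent.Helper94K9.OP.OpnL in
theorem opd (hK : S_KED) (hLim : S_LIM) (hB : S_BAS) (hT : S_TDB) (hI : Pool.Agent.Helper94K9.OP.S_INV) : S_OPD := by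
  intro f μ hf hμ d F hd hFc hFm hF0
  have : IsProbabilityMeasure μ := hμ.1
  have hinv := hI f μ hμ
  obtain ⟨s, hs, hreg⟩ := hLim d hd μ hinv F hFc
  refine ⟨s, hs, fun U ε hε => ?_⟩
  have hpos : ∀ y : ℝ, 0 ≤ y → 0 ≤ F y := fun y hy => by
    have := hFm hy
    rwa [hF0] at this
  have hF1 : 0 ≤ F 1 := hpos 1 zero_le_one
  have hs0 : ∀ U, 0 ≤ s U := fun U =>
    ge_of_tendsto' (hs U) fun L => integral_nonneg fun x => hpos _ (sd_nn hB hd _ L x)
  have hs1 : ∀ U, s U ≤ F 1 := fun U => by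
    refine le_of_tendsto' (hs U) fun L => ?_
    have h1 : ∫ x, F (SD d U L x) ∂μ ≤ ∫ _x, F 1 ∂μ :=
      integral_mono (F_int hB hd F hFc U L) (integrable_const _) fun x => hFm (sd_le hB hd U L x)
    simpa using h1
  have hmono : ∀ U U' : Set UnitAddCircle, U ⊆ U' → s U ≤ s U' := fun U U' h =>
    le_of_tendsto_of_tendsto' (hs U) (hs U') fun L =>
      integral_mono (F_int hB hd F hFc U L) (F_int hB hd F hFc U' L) fun x => hFm (sd_mono hB hd h L x)
  have hsU : s (U ∪ -U) = s U := by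
    refine tendsto_nhds_unique (hs (U ∪ -U)) ((hs U).congr fun L => ?_)
    exact integral_congr_ae (Eventually.of_forall fun x => congrArg F ((hB d hd U L).2.2.2.2.1 x).symm)
  obtain ⟨δ, hδ, hsδ⟩ := hreg (U ∪ -U) (ε / 4) (by positivity)
  set V := Metric.thickening δ (U ∪ -U) with hV
  have hVo : IsOpen V := Metric.isOpen_thickening
  have hVc : closure (U ∪ -U) ⊆ V := Metric.closure_subset_thickening hδ _
  set ε' : ℝ := ε / (4 * (F 1 + 2)) with hε'
  have hε'0 : 0 < ε' := by positivity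
  obtain ⟨φ, h01, hoff, hint⟩ := ury V hVo ε' hε'0
  obtain ⟨Q, hQ⟩ := hK f μ hf hμ d F φ ε' hd hFc hFm hF0 h01 hε'0
  refine ⟨Q, ?_⟩
  set T : Set UnitAddCircle := {θ | ∃ q : ℕ, 1 ≤ q ∧ q ≤ Q ∧ q • θ = 0} with hTdef
  obtain ⟨δ', hδ', hsδ'⟩ := hreg T ε' hε'0
  obtain ⟨I, w, L₀, hp, hw0, hw1, hmain⟩ := hQ (δ' / 2) (by positivity)
  have hsMj : s (Mj Q (δ' / 2)) ≤ s T + ε' := (hmono _ _ (mj_sub Q δ' hδ')).trans hsδ'
  have hφ1 : ∫ γ : UnitAddCircle, φ γ ≤ 1 := by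
    have h1 : ∫ γ : UnitAddCircle, φ γ ≤ ∫ _γ : UnitAddCircle, (1 : ℝ) :=
      integral_mono (Pool.Agent.Helper94K9.OP.ParL.cont_intR _ φ.continuous) (integrable_const _) fun θ => (h01 θ).2
    simpa [Measure.real] using h1
  have hφ0 : 0 ≤ ∫ γ : UnitAddCircle, φ γ := integral_nonneg fun θ => (h01 θ).1
  have hle : (∫ γ : UnitAddCircle, φ γ) * s Set.univ ≤
      s V + (∫ γ : UnitAddCircle, φ γ) * s (Mj Q (δ' / 2)) + ε' := by
    have hl : Tendsto (fun L : ℕ => (∫ γ : UnitAddCircle, φ γ) * ∫ x, F (SD d Set.univ L x) ∂μ) atTop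
        (𝓝 ((∫ γ : UnitAddCircle, φ γ) * s Set.univ)) := (hs Set.univ).const_mul _
    have hr : ∀ p ∈ I, Tendsto (fun L : ℕ => w p * ∫ x, F (SD d V (L / p) x) ∂μ) atTop (𝓝 (w p * s V)) := by
      intro p hpI
      exact ((hs V).comp (Pool.Agent.Helper94K9.OP.FinL.tend_div p (hp p hpI).pos)).const_mul _
    have hr2 : Tendsto (fun L : ℕ => (∫ γ : UnitAddCircle, φ γ) * ∫ x, F (SD d (Mj Q (δ' / 2)) L x) ∂μ) atTop
        (𝓝 ((∫ γ : UnitAddCircle, φ γ) * s (Mj Q (δ' / 2)))) := (hs _).const_mul _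
    have hsum := ((tendsto_finsetSum I hr).add hr2).add_const ε'
    have hle := le_of_tendsto_of_tendsto hl hsum (by
      filter_upwards [eventually_ge_atTop L₀] with L hL
      refine (hmain L hL).trans ?_
      refine add_le_add (add_le_add (sum_le_sum fun p _ => mul_le_mul_of_nonneg_left ?_ (hw0 p)) le_rfl) le_rfl
      have hT' := hT d hd F φ V (L / p) hFm hF0 h01 hoff
      have hTi : Integrable (TD d F φ (L / p)) μ := Integrable.of_bound hT'.1.measurable.aestronglyMeasurable (F 1)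
        (Eventually.of_forall fun x => by
          rw [Real.norm_eq_abs, abs_of_nonneg (hT'.2 x).1]
          exact (hT'.2 x).2.2)
      exact integral_mono hTi (F_int hB hd F hFc V _) fun x => (hT'.2 x).2.1)
    rw [← Finset.sum_mul, hw1, one_mul] at hle
    exact hle
  have hvol : (volume (closure (U ∪ -U))).toReal ≤ (∫ γ : UnitAddCircle, φ γ) + ε' := by
    have h1 : (volume (closure (U ∪ -U))).toReal ≤ (volume V).toReal :=
      ENNReal.toReal_mono (measure_ne_top _ _) (measure_mono hVc)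
    linarith
  have hdiff : 0 ≤ s Set.univ - s T := sub_nonneg.2 (hmono _ _ (Set.subset_univ _))
  have hdiff1 : s Set.univ - s T ≤ F 1 := by linarith [hs1 Set.univ, hs0 T]
  have h1 := mul_le_mul_of_nonneg_right hvol hdiff
  have h2 : (∫ γ : UnitAddCircle, φ γ) * s (Mj Q (δ' / 2)) ≤ (∫ γ : UnitAddCircle, φ γ) * s T + ε' := by
    have h3 := mul_le_mul_of_nonneg_left hsMj hφ0
    have h4 : (∫ γ : UnitAddCircle, φ γ) * ε' ≤ ε' := mul_le_of_le_one_left hε'0.le hφ1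
    linarith
  have h3 : ε' * (s Set.univ - s T) ≤ ε' * F 1 := mul_le_mul_of_nonneg_left hdiff1 hε'0.le
  have h4 : ε' * (F 1 + 2) = ε / 4 := by
    rw [hε']
    field_simp
  rw [hsU] at hsδ
  nlinarith

end Pool.Agent.Helper94K9.OD
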