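import Pool.Agent.Helper94K9.OP.St4

/-!
# Project OD, part 5 (MP_4a7640_nt, helper94): the sharp upper bound `s(U) ≤ |closure (U ∪ -U)| / 2`.
-/

set_option autoImplicit false

namespace Pool.Agent.Helper94K9.OD

open Finset MeasureTheory Filter Topology
open Pool.Agent.Helper94K9.OP (X SM Mj shift seq IsMult Aperiodic IsFurstenbergSystem Val VX SU S_ORT)

/-- the Dirichlet kernel -/
noncomputable def DK (L : ℕ) (φ : UnitAddCircle) : ℂ := ∑ h ∈ Icc 1 L, (fourier (h : ℤ) φ : ℂ)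

/-- [KER] tail of the Dirichlet kernel. Proof: `‖DK L φ‖ ≤ 1 / (2 ‖φ‖)` (geometric sum, `|e(φ) - 1| ≥ 4 ‖φ‖`), and
`∫_(δ < ‖φ‖) 1 / (4 ‖φ‖ ^ 2) = 2 ∫_δ^(1/2) dt / (4 t ^ 2) ≤ 1 / (2 δ)`. -/
def S_KER : Prop := ∀ (L : ℕ) (δ : ℝ), 0 < δ → ∫ φ in {φ : UnitAddCircle | δ < ‖φ‖}, ‖DK L φ‖ ^ 2 ≤ 1 / (2 * δ)

/-- [BND] `S_KER → S_BND`: local energy. Proof: `VX L x θ₀ = ∫ VX L x θ * conj (DK L (θ - θ₀))` (orthogonality); split at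
`‖θ - θ₀‖ ≤ C / L`, Cauchy-Schwarz in both parts with `∫ ‖DK‖ ^ 2 = L`, `∫ ‖VX‖ ^ 2 ≤ L` and `S_KER`:
`‖VX θ₀‖ ≤ (L ∫_ball ‖VX‖ ^ 2) ^ (1/2) + (L L / (2 C)) ^ (1/2)`, and `(a + b) ^ 2 ≤ (1 + ε) a ^ 2 + (1 + 1/ε) b ^ 2`. -/
def S_BND : Prop := ∀ (L : ℕ) (x : Pool.Agent.Helper94K9.OP.X) (θ₀ : UnitAddCircle) (C ε : ℝ), 1 ≤ L → 0 < ε → 0 < C →
  (‖VX L x θ₀‖ / L) ^ 2 ≤ (1 + ε) * (∫ θ in Metric.closedBall θ₀ (C / L), ‖VX L x θ‖ ^ 2 / L) + (1 + 1 / ε) / (2 * C)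

/-- [UP2] `S_BND → S_ORT → S_UP2` (helper94). -/
def S_UP2 : Prop := ∀ (f : ℕ → Val) (μ : Measure Pool.Agent.Helper94K9.OP.X), IsMult f → Aperiodic f →
  IsFurstenbergSystem f μ → ∀ (U : Set UnitAddCircle) (s : ℝ),
  Tendsto (fun L : ℕ => ∫ x, SU U L x ^ 2 ∂μ) atTop (𝓝 s) → s ≤ (volume (closure (U ∪ -U))).toReal / 2

end Pool.Agent.Helper94K9.OD
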