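import Pool.Agent.Helper94K9.OP.St3
import Pool.Agent.Helper44K9.FU.Stm

/-!
# Project OD (MP_4a7640_nt, helper94): polynomial phases of all degrees. Definitions and statements of the leaves.

Models for degree one (the same statements and proofs): Helper94K9/OP/{Sub,Opn,Opf,Clo,Eqc,Trf,Kef}.lean.
-/

set_option autoImplicit false

namespace Pool.Agent.Helper94K9.OD

open Finset MeasureTheory Filter Topology Polynomial
open Pool.Agent.H807R2.Dav (ee)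
open Pool.Agent.Helper94K9.OP (X SM Mj shift seq IsMult Aperiodic IsFurstenbergSystem Val)

/-- the real polynomials of degree at most `d` with coefficient of `X ^ d` in `U` modulo one -/
def PU (d : ℕ) (U : Set UnitAddCircle) : Set ℝ[X] :=
  {P | P.natDegree ≤ d ∧ ((P.coeff d : ℝ) : UnitAddCircle) ∈ U}

/-- the correlation on `(n, n + L]` -/
noncomputable def cf (f : ℕ → ℝ) (n L : ℕ) (P : ℝ[X]) : ℝ :=
  ‖Pool.Agent.Helper44K9.FU.W (fun m => (f m : ℂ)) P n L‖ / L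

/-- the largest correlation with a polynomial with leading coefficient in `U` -/
noncomputable def SF (d : ℕ) (U : Set UnitAddCircle) (f : ℕ → ℝ) (n L : ℕ) : ℝ := ⨆ P : PU d U, cf f n L P

/-- with `F` and a test function -/
noncomputable def TF (d : ℕ) (F : ℝ → ℝ) (φ : UnitAddCircle → ℝ) (f : ℕ → ℝ) (n L : ℕ) : ℝ :=
  ⨆ P : PU d Set.univ, φ ((P : ℝ[X]).coeff d : ℝ) * F (cf f n L P)

/-- the correlation of a point of the space of sequences -/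
noncomputable def cx (L : ℕ) (x : Pool.Agent.Helper94K9.OP.X) (P : ℝ[X]) : ℝ :=
  ‖∑ h ∈ Icc 1 L, ((x (h : ℤ) : ℝ) : ℂ) * ee (P.eval (h : ℝ))‖ / L

/-- its supremum -/
noncomputable def SD (d : ℕ) (U : Set UnitAddCircle) (L : ℕ) (x : Pool.Agent.Helper94K9.OP.X) : ℝ :=
  ⨆ P : PU d U, cx L x P

/-- with `F` and a test function -/
noncomputable def TD (d : ℕ) (F : ℝ → ℝ) (φ : UnitAddCircle → ℝ) (L : ℕ) (x : Pool.Agent.Helper94K9.OP.X) : ℝ :=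
  ⨆ P : PU d Set.univ, φ ((P : ℝ[X]).coeff d : ℝ) * F (cx L x P)

/-- [BAS] basic properties. (Models: OP/Sub.lean, OP/Opn.lean, OP/Clo.lean `thick_le`.) Continuity: `dep_cont` in
OP/Sub.lean. Subadditivity: `∑_{h ≤ L + M} = ∑_{h ≤ L} + ∑_{h ≤ M} x(h + L) e(P(h + L))`, and `P.comp (X + C L)`
(`Polynomial.taylor`) has degree at most `d` and the same coefficient of `X ^ d`. Symmetry: the conjugate is the sum
for `-P`. Neighbourhoods: if `θ` is at distance less than `δ` from a point of `K` change `P` by `b X ^ d` with a real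
number `|b| < δ`, the sum changes by at most `∑ 2 π |b| h ^ d ≤ L 2 π δ L ^ d` (`EqvL.rep` in OP/Eqv.lean). -/
def S_BAS : Prop := ∀ d : ℕ, 1 ≤ d → ∀ (U : Set UnitAddCircle) (L : ℕ),
  Continuous (SD d U L) ∧ (∀ x, 0 ≤ SD d U L x ∧ SD d U L x ≤ 1) ∧ (∀ x, ∀ P ∈ PU d U, cx L x P ≤ SD d U L x) ∧
  (∀ (M : ℕ) (x : Pool.Agent.Helper94K9.OP.X),
    ((L + M : ℕ) : ℝ) * SD d U (L + M) x ≤ L * SD d U L x + M * SD d U M (shift (L : ℤ) x)) ∧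
  (∀ x, SD d (U ∪ -U) L x = SD d U L x) ∧
  ∀ δ : ℝ, 0 < δ → ∀ x, SD d (Metric.thickening δ U) L x ≤ SD d U L x + 2 * Real.pi * (L : ℝ) ^ d * δ

/-- [TDB] the suprema with test functions. (Models: `SXF_le`, `SXF_cont` in OP/Opf.lean.) -/
def S_TDB : Prop := ∀ d : ℕ, 1 ≤ d → ∀ (F : ℝ → ℝ) (φ : UnitAddCircle → ℝ) (U : Set UnitAddCircle) (L : ℕ),
  Monotone F → F 0 = 0 → (∀ θ, 0 ≤ φ θ ∧ φ θ ≤ 1) → (∀ θ ∉ U, φ θ = 0) →
  Continuous (TD d F φ L) ∧ ∀ x, 0 ≤ TD d F φ L x ∧ TD d F φ L x ≤ F (SD d U L x) ∧ TD d F φ L x ≤ F 1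

/-- [LIM] `S_BAS → S_LIM` (helper94): limits, and outer regularity. (Models: OP/Opf.lean `suf`, OP/Clo.lean.) -/
def S_LIM : Prop := ∀ d : ℕ, 1 ≤ d → ∀ (μ : Measure Pool.Agent.Helper94K9.OP.X) [IsProbabilityMeasure μ],
  MeasurePreserving (shift 1) μ μ → ∀ F : ℝ → ℝ, Continuous F → ∃ s : Set UnitAddCircle → ℝ,
    (∀ U, Tendsto (fun L : ℕ => ∫ x, F (SD d U L x) ∂μ) atTop (𝓝 (s U))) ∧
    ∀ K : Set UnitAddCircle, ∀ ε > 0, ∃ δ > 0, s (Metric.thickening δ K) ≤ s K + ε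

/-- [EQP] `FU.S_PW → FU.S_CHB → S_EQP`: the numbers `p ^ d θ` are equidistributed unless `θ` is near a rational
number with a small denominator. (Model: OP/Eqc.lean, OP/Eqd.lean.) `I` = all primes in `(2 ^ k₁, 2 ^ k₂]`, the weights are
`w p = v p / V`, `v p = log p / (2 ^ k k)` for `2 ^ k < p ≤ 2 ^ (k + 1)`, `V` the sum of the `v p`; so
`v p ≤ 2 / p` and by `FU.S_CHB` a block contributes at least `b log 2 / k` to `V`. By `FU.S_PW` (prime powers: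
at most `√(2 N) log (2 N)` in the block) the sum of `v p e(m p ^ d θ)` over a block is at most `2 ε' / k`, unless
`|q m θ - a| ≤ C / 2 ^ (k d) ≤ τ` for some `q ≤ C`. General `φ`: trigonometric polynomials as in `eqc`. -/
def S_EQP : Prop := ∀ (d : ℕ) (φ : C(UnitAddCircle, ℝ)) (ε : ℝ), 1 ≤ d → 0 < ε → ∃ Q : ℕ, ∀ τ : ℝ, 0 < τ →
  ∀ (z : ℕ) (A : ℝ), ∃ (I : Finset ℕ) (w : ℕ → ℝ), (∀ p ∈ I, p.Prime ∧ z < p) ∧ (∀ p, 0 ≤ w p) ∧
    ∑ p ∈ I, w p = 1 ∧ (∀ p ∈ I, A * w p ≤ 1 / (p : ℝ)) ∧ ∀ θ ∉ Mj Q τ,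
      |∑ p ∈ I, w p * φ ((p ^ d : ℕ) • θ) - ∫ γ : UnitAddCircle, φ γ| ≤ ε

/-- [TRD] `S_EQP → FU.S_PUSH → S_TRD`. (Model: OP/Trf.lean.) Proof: `P₀` with `F(SF univ) ≤ F(cf P₀) + ε'` (continuity of
`F`; `0` is in `PU d univ`). If its leading coefficient `α` is in `Mj Q τ`, the last term is enough. Otherwise
`∑ w p φ(p ^ d α) ≥ ∫ φ - ε'`; by `FU.S_PUSH` with small `η` (`z ≥ 8/η`) the sum of `1/p` over the `p` with
`‖W f (dil p P₀) (n/p) (L/p)‖ < (cf P₀ - η) (L/p)` is at most `100/η ^ 2`, so the sum of `w p` over them is at most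
`100/(A η ^ 2) ≤ ε'`; for the other `p`: `TF (n/p) (L/p) ≥ φ(p ^ d α) F(cf P₀ - η) ≥ φ(p ^ d α) (F(cf P₀) - ε')`
(`L/p ≥ 1`; `(dil p P₀).coeff d = p ^ d α`, natural degree at most `d`). -/
def S_TRD : Prop := ∀ (d : ℕ) (F : ℝ → ℝ) (φ : C(UnitAddCircle, ℝ)) (ε : ℝ), 1 ≤ d → Continuous F → Monotone F →
  F 0 = 0 → (∀ θ, 0 ≤ φ θ ∧ φ θ ≤ 1) → 0 < ε → ∃ Q : ℕ, ∀ τ : ℝ, 0 < τ → ∃ (I : Finset ℕ) (w : ℕ → ℝ) (L₀ : ℕ),
  (∀ p ∈ I, p.Prime) ∧ (∀ p, 0 ≤ w p) ∧ ∑ p ∈ I, w p = 1 ∧ ∀ L ≥ L₀, ∀ f : ℕ → ℝ, SM f → ∀ n : ℕ,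
    (∫ γ : UnitAddCircle, φ γ) * F (SF d Set.univ f n L) ≤ ∑ p ∈ I, w p * TF d F φ f (n / p) (L / p) +
      (∫ γ : UnitAddCircle, φ γ) * F (SF d (Mj Q τ) f n L) + ε

/-- [KED] `S_TRD → S_BAS → S_TDB → OP.S_INV → S_KED`. (Model: OP/Kef.lean. With `rf f` as there,
`SF d U (rf f) n L = SD d U L (shift n (seq f))` and `TF d F φ (rf f) n L = TD d F φ L (shift n (seq f))`: replace `P` by
`P.comp (X + C n)`, of the same degree and coefficient of `X ^ d`.) -/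
def S_KED : Prop := ∀ (f : ℕ → Val) (μ : Measure Pool.Agent.Helper94K9.OP.X), IsMult f → IsFurstenbergSystem f μ →
  ∀ (d : ℕ) (F : ℝ → ℝ) (φ : C(UnitAddCircle, ℝ)) (ε : ℝ), 1 ≤ d → Continuous F → Monotone F → F 0 = 0 →
  (∀ θ, 0 ≤ φ θ ∧ φ θ ≤ 1) → 0 < ε → ∃ Q : ℕ, ∀ τ : ℝ, 0 < τ → ∃ (I : Finset ℕ) (w : ℕ → ℝ) (L₀ : ℕ),
  (∀ p ∈ I, p.Prime) ∧ (∀ p, 0 ≤ w p) ∧ ∑ p ∈ I, w p = 1 ∧ ∀ L ≥ L₀,
    (∫ γ : UnitAddCircle, φ γ) * ∫ x, F (SD d Set.univ L x) ∂μ ≤ ∑ p ∈ I, w p * ∫ x, TD d F φ (L / p) x ∂μ +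
      (∫ γ : UnitAddCircle, φ γ) * ∫ x, F (SD d (Mj Q τ) L x) ∂μ + ε

/-- [TOR] torsion points as leading coefficients: reduction to the degree `d - 1`. Proof: for a polynomial `P` in
`PU d (Mj Q 0)` the coefficient of `X ^ d` is `a / q`, `a` an integer, `q ≤ Q`, so `e(P(h)) = e(P₁(h)) e(a h ^ d / q)` with
`P₁` of degree at most `d - 1`, and `e(a h ^ d / q)` depends on `h` modulo `q` only, so it is a combination of
`e(b h / q)`, `0 ≤ b < q`, with coefficients at most one in absolute value (discrete Fourier transform). As `d ≥ 2`, the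
polynomials `P₁ + (b / q) X` have degree at most `d - 1`. -/
def S_TOR : Prop := ∀ d : ℕ, 2 ≤ d → ∀ (Q L : ℕ) (x : Pool.Agent.Helper94K9.OP.X),
  SD d (Mj Q 0) L x ≤ (Q : ℝ) * SD (d - 1) Set.univ L x

/-- [OPD] `S_KED → S_LIM → S_BAS → S_TDB → OP.S_INV → S_OPD` (helper94). -/
def S_OPD : Prop := ∀ (f : ℕ → Val) (μ : Measure Pool.Agent.Helper94K9.OP.X), IsMult f → IsFurstenbergSystem f μ →
  ∀ (d : ℕ) (F : ℝ → ℝ), 1 ≤ d → Continuous F → Monotone F → F 0 = 0 → ∃ s : Set UnitAddCircle → ℝ,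
    (∀ U, Tendsto (fun L : ℕ => ∫ x, F (SD d U L x) ∂μ) atTop (𝓝 (s U))) ∧
    ∀ U, ∀ ε > 0, ∃ Q : ℕ,
      (volume (closure (U ∪ -U))).toReal * (s Set.univ - s {θ | ∃ q : ℕ, 1 ≤ q ∧ q ≤ Q ∧ q • θ = 0}) ≤ s U + ε

end Pool.Agent.Helper94K9.OD
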