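import Pool.Agent.Helper94K9.OD.Stm

/-!
# [TDB] the suprema over polynomials with test functions
-/

set_option autoImplicit false

namespace Pool.Agent.Helper94K9.OD

open Finset MeasureTheory Filter Topology Polynomial
open Pool.Agent.H807R2.Dav (ee)
open Pool.Agent.Helper94K9.OP (X SM Mj shift seq IsMult Aperiodic IsFurstenbergSystem Val)

namespace TdbL

/-- a function of finitely many coordinates is continuous -/
theorem dep_cont (F : Pool.Agent.Helper94K9.OP.X → ℝ) (L : ℕ)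
    (h : ∀ x y : Pool.Agent.Helper94K9.OP.X, (∀ i : ℕ, i ∈ Icc 1 L → x (i : ℤ) = y (i : ℤ)) → F x = F y) :
    Continuous F := by
  obtain ⟨r, hr⟩ : ∃ r : Pool.Agent.Helper94K9.OP.X → (Icc 1 L → Val), r = fun x i => x ((i : ℕ) : ℤ) :=
    ⟨_, rfl⟩
  have hrc : Continuous r := by
    rw [hr]
    exact continuous_pi fun i => continuous_apply _
  have hfac : Function.FactorsThrough F r := by
    intro x y hxy
    apply h
    intro i hi
    have := congrFun hxy ⟨i, hi⟩
    rw [hr] at this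
    exact this
  have hfin : Finite Val := by
    have : Finite (({-1, 0, 1} : Set ℝ) : Type) := Set.Finite.to_subtype (by simp)
    exact this
  have e : F = Function.extend r F 0 ∘ r := by
    funext x
    exact (hfac.extend_apply 0 x).symm
  rw [e]
  exact (continuous_of_discreteTopology).comp hrc

theorem cx_dep (L : ℕ) (x y : Pool.Agent.Helper94K9.OP.X)
    (h : ∀ i : ℕ, i ∈ Icc 1 L → x (i : ℤ) = y (i : ℤ)) (P : ℝ[X]) : cx L x P = cx L y P := by
  unfold cx
  rw [Finset.sum_congr rfl fun i hi => by rw [h i hi]]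

theorem cx_nonneg (L : ℕ) (x : Pool.Agent.Helper94K9.OP.X) (P : ℝ[X]) : 0 ≤ cx L x P := by
  unfold cx
  positivity

theorem norm_ee (t : ℝ) : ‖ee t‖ = 1 := by
  have e : ee t = Complex.exp (((2 * Real.pi * t : ℝ) : ℂ) * Complex.I) := by
    unfold ee
    congr 1
    push_cast
    ring
  rw [e]
  exact Complex.norm_exp_ofReal_mul_I _

theorem val_le (v : Val) : |(v : ℝ)| ≤ 1 := by
  rcases v.2 with h | h | h
  · rw [h]; norm_num
  · rw [h]; norm_num
  · rw [h]; norm_num

theorem cx_le_one (L : ℕ) (x : Pool.Agent.Helper94K9.OP.X) (P : ℝ[X]) : cx L x P ≤ 1 := by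
  unfold cx
  refine div_le_one_of_le₀ ?_ (Nat.cast_nonneg L)
  refine (norm_sum_le _ _).trans ?_
  calc ∑ i ∈ Icc 1 L, ‖((x (i : ℤ) : ℝ) : ℂ) * ee (P.eval (i : ℝ))‖ ≤ ∑ i ∈ Icc 1 L, (1 : ℝ) := by
        refine Finset.sum_le_sum fun i _ => ?_
        rw [norm_mul, norm_ee, mul_one, Complex.norm_real, Real.norm_eq_abs]
        exact val_le _
    _ = L := by simp

theorem bdd (d : ℕ) (U : Set UnitAddCircle) (L : ℕ) (x : Pool.Agent.Helper94K9.OP.X) :
    BddAbove (Set.range fun P : PU d U => cx L x P) := by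
  refine ⟨1, ?_⟩
  rintro _ ⟨P, rfl⟩
  exact cx_le_one L x P

theorem le_SD (d : ℕ) (U : Set UnitAddCircle) (L : ℕ) (x : Pool.Agent.Helper94K9.OP.X) (P : ℝ[X])
    (hP : P ∈ PU d U) : cx L x P ≤ SD d U L x :=
  le_ciSup (bdd d U L x) ⟨P, hP⟩

theorem SD_nonneg (d : ℕ) (U : Set UnitAddCircle) (L : ℕ) (x : Pool.Agent.Helper94K9.OP.X) :
    0 ≤ SD d U L x :=
  Real.iSup_nonneg fun P => cx_nonneg L x P

theorem SD_le_one (d : ℕ) (U : Set UnitAddCircle) (L : ℕ) (x : Pool.Agent.Helper94K9.OP.X) :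
    SD d U L x ≤ 1 :=
  Real.iSup_le (fun P => cx_le_one L x P) zero_le_one

end TdbL

open TdbL

/-- [TDB] -/
theorem tdb : S_TDB := by
  intro d _ F φ U L hm h0 hφ hU
  have hpos : ∀ y : ℝ, 0 ≤ y → 0 ≤ F y := fun y hy => by
    have := hm hy
    rwa [h0] at this
  refine ⟨dep_cont _ L fun x y h => ?_, fun x => ?_⟩
  · unfold TD
    simp only [cx_dep L x y h]
  · have h1 : TD d F φ L x ≤ F (SD d U L x) := by
      refine Real.iSup_le (fun P => ?_) (hpos _ (SD_nonneg d U L x))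
      by_cases h : (((P : ℝ[X]).coeff d : ℝ) : UnitAddCircle) ∈ U
      · calc φ ((P : ℝ[X]).coeff d : ℝ) * F (cx L x P) ≤ 1 * F (cx L x P) :=
              mul_le_mul_of_nonneg_right (hφ _).2 (hpos _ (cx_nonneg L x P))
          _ = F (cx L x P) := one_mul _
          _ ≤ _ := hm (le_SD d U L x P ⟨P.2.1, h⟩)
      · rw [hU _ h, zero_mul]
        exact hpos _ (SD_nonneg d U L x)
    exact ⟨Real.iSup_nonneg fun P => mul_nonneg (hφ _).1 (hpos _ (cx_nonneg L x P)), h1,
      h1.trans (hm (SD_le_one d U L x))⟩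

end Pool.Agent.Helper94K9.OD
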