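import Pool.Agent.Helper94K9.OD.Stm

set_option autoImplicit false

/-!
# Torsion points as leading coefficients: reduction to the degree `d - 1`
-/

namespace Pool.Agent.Helper94K9.OD

open Finset MeasureTheory Filter Topology Polynomial
open Pool.Agent.H807R2.Dav (ee norm_ee ee_add ee_int ee_add_int)
open Pool.Agent.Helper94K9.OP (Mj)

namespace TorL

/-- the discrete Fourier expansion of a periodic function -/
theorem expand (q : ℕ) [NeZero q] (g : ℕ → ℂ) (hg : ∀ n, g (n % q) = g n)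
    (hb : ∀ n, ‖g n‖ ≤ 1) : ∃ c : ZMod q → ℂ, (∀ b, ‖c b‖ ≤ 1) ∧
      ∀ n : ℕ, g n = ∑ b : ZMod q, c b * ee ((b.val : ℝ) * n / q) := by
  classical
  let Φ : ZMod q → ℂ := fun j => g j.val
  have hq0 : (0 : ℝ) < q := by exact_mod_cast Nat.pos_of_ne_zero (NeZero.ne q)
  refine ⟨fun b => (q : ℂ)⁻¹ * ZMod.dft Φ b, fun b => ?_, fun n => ?_⟩
  · rw [norm_mul, norm_inv, Complex.norm_natCast]
    have h1 : ‖ZMod.dft Φ b‖ ≤ q := by
      rw [ZMod.dft_apply]
      calc _ ≤ ∑ j : ZMod q, ‖ZMod.stdAddChar (-(j * b)) • Φ j‖ := norm_sum_le _ _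
        _ ≤ ∑ j : ZMod q, (1 : ℝ) := by
          refine Finset.sum_le_sum fun j _ => ?_
          rw [norm_smul, ZMod.stdAddChar_apply, Circle.norm_coe, one_mul]
          exact hb _
        _ = q := by simp [ZMod.card]
    rw [inv_mul_le_iff₀ hq0, mul_one]
    exact h1
  · have h1 : Φ (n : ZMod q) = g n := by
      change g (ZMod.val (n : ZMod q)) = g n
      rw [ZMod.val_natCast, hg]
    rw [← h1]
    have h2 := ZMod.invDFT_apply (ZMod.dft Φ) (n : ZMod q)
    rw [LinearEquiv.symm_apply_apply] at h2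
    rw [h2, Finset.smul_sum]
    refine Finset.sum_congr rfl fun b _ => ?_
    have h3 : ZMod.stdAddChar (b * (n : ZMod q)) = ee ((b.val : ℝ) * n / q) := by
      have h4 := ZMod.stdAddChar_coe (N := q) (b.val * n)
      rw [Int.cast_mul, Int.cast_natCast, Int.cast_natCast, ZMod.natCast_zmod_val] at h4
      rw [h4]
      unfold ee
      congr 1
      push_cast
      ring
    rw [h3]
    simp only [smul_eq_mul]
    ring

theorem val_le (x : Pool.Agent.Helper94K9.OP.X) (h : ℤ) : ‖((x h : ℝ) : ℂ)‖ ≤ 1 := by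
  rw [Complex.norm_real]
  rcases (x h).2 with h1 | h1 | h1
  · rw [h1]; norm_num
  · rw [h1]; norm_num
  · rw [Set.mem_singleton_iff.1 h1]; norm_num

theorem cx_nonneg (L : ℕ) (x : Pool.Agent.Helper94K9.OP.X) (P : ℝ[X]) : 0 ≤ cx L x P :=
  div_nonneg (norm_nonneg _) (Nat.cast_nonneg _)

theorem cx_le_one (L : ℕ) (x : Pool.Agent.Helper94K9.OP.X) (P : ℝ[X]) : cx L x P ≤ 1 := by
  unfold cx
  apply div_le_one_of_le₀ _ (Nat.cast_nonneg _)
  refine (norm_sum_le _ _).trans ?_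
  calc _ ≤ ∑ h ∈ Icc 1 L, (1 : ℝ) := Finset.sum_le_sum fun h _ => by
        rw [norm_mul, norm_ee, mul_one]
        exact val_le x h
    _ = L := by simp

theorem cx_le_SD (d : ℕ) (U : Set UnitAddCircle) (L : ℕ) (x : Pool.Agent.Helper94K9.OP.X)
    (P : ℝ[X]) (hP : P ∈ PU d U) : cx L x P ≤ SD d U L x :=
  le_ciSup (f := fun P : PU d U => cx L x P)
    ⟨1, by rintro _ ⟨P, rfl⟩; exact cx_le_one L x _⟩ ⟨P, hP⟩

end TorL

open TorL

theorem tor : S_TOR := by
  intro d hd Q L x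
  have hSD0 : 0 ≤ SD (d - 1) Set.univ L x := Real.iSup_nonneg fun P => cx_nonneg L x _
  refine Real.iSup_le ?_ (mul_nonneg (Nat.cast_nonneg _) hSD0)
  rintro ⟨P, hP, hPm⟩
  obtain ⟨q, hq1, hqQ, hq⟩ := hPm
  have h0 : q • ((P.coeff d : ℝ) : UnitAddCircle) = 0 := norm_le_zero_iff.1 hq
  rw [← AddCircle.coe_nsmul, AddCircle.coe_eq_zero_iff] at h0
  obtain ⟨a, ha⟩ := h0
  have hqn : q ≠ 0 := by omega
  have : NeZero q := ⟨hqn⟩
  have hq0 : (q : ℝ) ≠ 0 := by exact_mod_cast hqn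
  have haq : P.coeff d = (a : ℝ) / q := by
    rw [eq_div_iff hq0]
    simp only [zsmul_eq_mul, mul_one, nsmul_eq_mul] at ha
    rw [ha]
    ring
  -- the periodic factor
  obtain ⟨c, hc1, hc⟩ := expand q (fun n => ee ((a : ℝ) * (n : ℝ) ^ d / q)) (by
    intro n
    have h1 : (n % q) ^ d ≡ n ^ d [MOD q] := (Nat.mod_modEq n q).pow d
    change ee ((a : ℝ) * ((n % q : ℕ) : ℝ) ^ d / q) = ee ((a : ℝ) * (n : ℝ) ^ d / q)
    generalize n % q = r at h1 ⊢
    obtain ⟨k, hk⟩ := Nat.modEq_iff_dvd.1 h1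
    have h2 : ((n : ℝ)) ^ d = (r : ℝ) ^ d + q * k := by
      have h4 : ((((n ^ d : ℕ) : ℤ) - ((r ^ d : ℕ) : ℤ) : ℤ) : ℝ) = ((q * k : ℤ) : ℝ) := by
        rw [hk]
      push_cast at h4
      linarith
    have h5 : (a : ℝ) * (n : ℝ) ^ d / q = (a : ℝ) * (r : ℝ) ^ d / q + ((a * k : ℤ) : ℝ) := by
      rw [h2]
      push_cast
      field_simp
    rw [h5, ee_add_int]) (fun n => (norm_ee _).le)
  let P₁ : ℝ[X] := P - Polynomial.monomial d (P.coeff d)
  let P₂ : ZMod q → ℝ[X] := fun b => P₁ + Polynomial.monomial 1 ((b.val : ℝ) / q)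
  have hP₂ : ∀ b, P₂ b ∈ PU (d - 1) Set.univ := by
    intro b
    refine ⟨?_, Set.mem_univ _⟩
    rw [Polynomial.natDegree_le_iff_coeff_eq_zero]
    intro N hN
    have hN1 : 1 ≠ N := by omega
    simp only [P₂, P₁, Polynomial.coeff_add, Polynomial.coeff_sub, Polynomial.coeff_monomial,
      if_neg hN1, add_zero]
    by_cases hdN : d = N
    · subst hdN
      rw [if_pos rfl, sub_self]
    · rw [if_neg hdN, sub_zero]
      exact Polynomial.coeff_eq_zero_of_natDegree_lt (by omega)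
  have hsum : ∑ h ∈ Icc 1 L, ((x (h : ℤ) : ℝ) : ℂ) * ee (P.eval (h : ℝ)) =
      ∑ b : ZMod q, c b * ∑ h ∈ Icc 1 L, ((x (h : ℤ) : ℝ) : ℂ) * ee ((P₂ b).eval (h : ℝ)) := by
    simp_rw [Finset.mul_sum]
    rw [Finset.sum_comm]
    refine Finset.sum_congr rfl fun h _ => ?_
    have h1 : P.eval (h : ℝ) = P₁.eval (h : ℝ) + (a : ℝ) * (h : ℝ) ^ d / q := by
      simp only [P₁, Polynomial.eval_sub, Polynomial.eval_monomial, haq]
      ring
    rw [h1, ee_add, hc h, Finset.mul_sum, Finset.mul_sum]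
    refine Finset.sum_congr rfl fun b _ => ?_
    have h2 : (P₂ b).eval (h : ℝ) = P₁.eval (h : ℝ) + (b.val : ℝ) * h / q := by
      simp only [P₂, Polynomial.eval_add, Polynomial.eval_monomial, pow_one]
      ring
    rw [h2, ee_add]
    ring
  have hle : cx L x P ≤ ∑ b : ZMod q, SD (d - 1) Set.univ L x := by
    calc cx L x P = ‖∑ b : ZMod q, c b * ∑ h ∈ Icc 1 L,
          ((x (h : ℤ) : ℝ) : ℂ) * ee ((P₂ b).eval (h : ℝ))‖ / L := by
          rw [← hsum]
          rfl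
      _ ≤ (∑ b : ZMod q, ‖∑ h ∈ Icc 1 L,
          ((x (h : ℤ) : ℝ) : ℂ) * ee ((P₂ b).eval (h : ℝ))‖) / L := by
          apply div_le_div_of_nonneg_right _ (Nat.cast_nonneg _)
          refine (norm_sum_le _ _).trans (Finset.sum_le_sum fun b _ => ?_)
          rw [norm_mul]
          exact mul_le_of_le_one_left (norm_nonneg _) (hc1 b)
      _ = ∑ b : ZMod q, cx L x (P₂ b) := by
          rw [Finset.sum_div]
          rfl
      _ ≤ _ := Finset.sum_le_sum fun b _ => cx_le_SD _ _ _ _ _ (hP₂ b)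
  refine hle.trans ?_
  rw [Finset.sum_const, Finset.card_univ, ZMod.card, nsmul_eq_mul]
  exact mul_le_mul_of_nonneg_right (by exact_mod_cast hqQ) hSD0

end Pool.Agent.Helper94K9.OD
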