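import Pool.Agent.Helper94K9.OD.Stm

/-! # Project OD: [TRD] -/

set_option autoImplicit false

namespace Pool.Agent.Helper94K9.OD

open Finset MeasureTheory Filter Topology Polynomial
open Pool.Agent.H807R2.Dav (ee norm_ee)
open Pool.Agent.Helper94K9.OP (SM Mj)
open Pool.Agent.Helper44K9.FU (W dil Mul1)

namespace TrdL

theorem W_le (g : ℕ → ℂ) (hg : ∀ n, ‖g n‖ ≤ 1) (P : ℝ[X]) (n L : ℕ) : ‖W g P n L‖ ≤ L := by
  unfold W
  refine (norm_sum_le _ _).trans ?_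
  calc ∑ m ∈ Ioc n (n + L), ‖g m * ee (P.eval (m : ℝ))‖ ≤ ∑ m ∈ Ioc n (n + L), (1 : ℝ) := by
        refine sum_le_sum fun m _ => ?_
        rw [norm_mul, norm_ee, mul_one]
        exact hg m
    _ = L := by simp

theorem norm_cast_le (f : ℕ → ℝ) (hf : ∀ n, |f n| ≤ 1) (n : ℕ) : ‖((f n : ℝ) : ℂ)‖ ≤ 1 := by
  rw [Complex.norm_real, Real.norm_eq_abs]
  exact hf n

theorem cf_nonneg (f : ℕ → ℝ) (n L : ℕ) (P : ℝ[X]) : 0 ≤ cf f n L P :=
  div_nonneg (norm_nonneg _) (Nat.cast_nonneg _)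

theorem cf_le (f : ℕ → ℝ) (hf : ∀ n, |f n| ≤ 1) (n L : ℕ) (P : ℝ[X]) : cf f n L P ≤ 1 :=
  div_le_one_of_le₀ (W_le _ (norm_cast_le f hf) P n L) (Nat.cast_nonneg _)

theorem le_SF (f : ℕ → ℝ) (hf : ∀ n, |f n| ≤ 1) (n L d : ℕ) {U : Set UnitAddCircle} {P : ℝ[X]}
    (hP : P ∈ PU d U) : cf f n L P ≤ SF d U f n L := by
  have hb : BddAbove (Set.range fun P : PU d U => cf f n L P) :=
    ⟨1, by rintro _ ⟨P, rfl⟩; exact cf_le f hf n L P⟩
  exact le_ciSup hb (⟨P, hP⟩ : PU d U)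

theorem SF_nonneg (d : ℕ) (U : Set UnitAddCircle) (f : ℕ → ℝ) (n L : ℕ) : 0 ≤ SF d U f n L :=
  Real.iSup_nonneg fun _ => cf_nonneg _ _ _ _

theorem SF_le (d : ℕ) (U : Set UnitAddCircle) (f : ℕ → ℝ) (hf : ∀ n, |f n| ≤ 1) (n L : ℕ) :
    SF d U f n L ≤ 1 :=
  Real.iSup_le (fun P => cf_le f hf n L P) zero_le_one

theorem F_cf {F : ℝ → ℝ} (hm : Monotone F) (h0 : F 0 = 0) (f : ℕ → ℝ) (hf : ∀ n, |f n| ≤ 1)
    (n L : ℕ) (P : ℝ[X]) : 0 ≤ F (cf f n L P) ∧ F (cf f n L P) ≤ F 1 := by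
  constructor
  · rw [← h0]; exact hm (cf_nonneg f n L P)
  · exact hm (cf_le f hf n L P)

theorem le_TF {F : ℝ → ℝ} (hm : Monotone F) (h0 : F 0 = 0) {φ : UnitAddCircle → ℝ}
    (hφ : ∀ θ, 0 ≤ φ θ ∧ φ θ ≤ 1) (f : ℕ → ℝ) (hf : ∀ n, |f n| ≤ 1) (n L d : ℕ) {P : ℝ[X]}
    (hP : P.natDegree ≤ d) :
    φ ((P.coeff d : ℝ) : UnitAddCircle) * F (cf f n L P) ≤ TF d F φ f n L := by
  have hb : BddAbove (Set.range fun P : PU d Set.univ =>
      φ (((P : ℝ[X]).coeff d : ℝ) : UnitAddCircle) * F (cf f n L P)) := by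
    refine ⟨F 1, ?_⟩
    rintro _ ⟨P, rfl⟩
    have h1 := F_cf hm h0 f hf n L P
    have h2 := hφ (((P : ℝ[X]).coeff d : ℝ) : UnitAddCircle)
    calc φ (((P : ℝ[X]).coeff d : ℝ) : UnitAddCircle) * F (cf f n L P) ≤ 1 * F (cf f n L P) :=
          mul_le_mul_of_nonneg_right h2.2 h1.1
      _ ≤ F 1 := by rw [one_mul]; exact h1.2
  exact le_ciSup hb (⟨P, hP, Set.mem_univ _⟩ : PU d Set.univ)

theorem TF_nonneg {F : ℝ → ℝ} (hm : Monotone F) (h0 : F 0 = 0) {φ : UnitAddCircle → ℝ}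
    (hφ : ∀ θ, 0 ≤ φ θ ∧ φ θ ≤ 1) (f : ℕ → ℝ) (hf : ∀ n, |f n| ≤ 1) (n L d : ℕ) :
    0 ≤ TF d F φ f n L :=
  Real.iSup_nonneg fun P => mul_nonneg (hφ _).1 (F_cf hm h0 f hf n L P).1

theorem mul1 (f : ℕ → ℝ) (hf : SM f) : Mul1 (fun m => ((f m : ℝ) : ℂ)) := by
  refine ⟨fun m => norm_cast_le f hf.1 m, fun a b hab => ?_⟩
  have hf1 : f 1 = 1 := by
    have e := hf.2.2 1 1 le_rfl le_rfl (Nat.coprime_one_left 1)
    rw [mul_one] at e
    rcases hf.2.1 1 le_rfl with h | h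
    · exact h
    · rw [h] at e
      norm_num at e
  rcases Nat.eq_zero_or_pos a with rfl | ha
  · rw [Nat.coprime_zero_left] at hab
    subst hab
    simp [hf1]
  rcases Nat.eq_zero_or_pos b with rfl | hb
  · rw [Nat.coprime_zero_right] at hab
    subst hab
    simp [hf1]
  · change ((f (a * b) : ℝ) : ℂ) = (f a : ℂ) * (f b : ℂ)
    rw [← Complex.ofReal_mul, hf.2.2 a b ha hb hab]

end TrdL

open TrdL in
theorem trd (heqp : S_EQP) (hpush : Pool.Agent.Helper44K9.FU.S_PUSH) : S_TRD := by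
  intro d F φ ε hd hF hmon h0 hφ hε
  have h1 : UniformContinuousOn F (Set.Icc 0 1) :=
    isCompact_Icc.uniformContinuousOn_of_continuous hF.continuousOn
  rw [Metric.uniformContinuousOn_iff] at h1
  obtain ⟨δ, hδ, hu⟩ := h1 (ε / 4) (by positivity)
  have hF1 : 0 ≤ F 1 := by rw [← h0]; exact hmon (by norm_num)
  obtain ⟨ε₁, hε₁⟩ : ∃ ε₁ : ℝ, ε₁ = ε / (4 * (F 1 + 1)) := ⟨_, rfl⟩
  have hε₁0 : 0 < ε₁ := by rw [hε₁]; positivity
  have hε₁F : ε₁ * F 1 ≤ ε / 4 := by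
    rw [hε₁, div_mul_eq_mul_div, div_le_iff₀ (by positivity)]
    nlinarith
  obtain ⟨Q, hQ⟩ := heqp d φ ε₁ hd hε₁0
  refine ⟨Q, fun τ hτ => ?_⟩
  obtain ⟨η, hη⟩ : ∃ η : ℝ, η = δ / 2 := ⟨_, rfl⟩
  have hη0 : 0 < η := by rw [hη]; positivity
  obtain ⟨A, hA⟩ : ∃ A : ℝ, A = 100 / (η ^ 2 * ε₁) := ⟨_, rfl⟩
  have hA0 : 0 < A := by rw [hA]; positivity
  obtain ⟨I, w, hI, hw0, hw1, hwA, hI2⟩ := hQ τ hτ ⌈8 / η⌉₊ A
  have hIp : ∀ p ∈ I, p.Prime := fun p hp => (hI p hp).1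
  obtain ⟨H₀, hH⟩ := hpush I η hη0 (fun p hp => ⟨(hI p hp).1,
    (Nat.le_ceil _).trans (by exact_mod_cast (hI p hp).2.le)⟩)
  refine ⟨I, w, H₀ + ∑ p ∈ I, p, hIp, hw0, hw1, fun L hL f hf n => ?_⟩
  have hLp : ∀ p ∈ I, p ≤ L := by
    intro p hp
    have := single_le_sum (f := fun p : ℕ => p) (fun _ _ => Nat.zero_le _) hp
    omega
  have hf1 := hf.1
  -- the integral
  have hvol : (volume : Measure UnitAddCircle) Set.univ = 1 := by
    rw [AddCircle.measure_univ, ENNReal.ofReal_one]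
  have hint : IsProbabilityMeasure (volume : Measure UnitAddCircle) := ⟨hvol⟩
  have hφi : Integrable (fun θ : UnitAddCircle => φ θ) volume :=
    (φ.continuous.integrable_of_hasCompactSupport (HasCompactSupport.of_compactSpace _))
  have hm0 : 0 ≤ ∫ γ : UnitAddCircle, φ γ := integral_nonneg fun γ => (hφ γ).1
  have hm1 : ∫ γ : UnitAddCircle, φ γ ≤ 1 := by
    have h1 : ∫ γ : UnitAddCircle, φ γ ≤ ∫ γ : UnitAddCircle, (1 : ℝ) :=
      integral_mono hφi (integrable_const _) fun γ => (hφ γ).2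
    simpa using h1
  set m : ℝ := ∫ γ : UnitAddCircle, φ γ with hm
  -- an almost maximal polynomial
  obtain ⟨P, hPd, hPc⟩ : ∃ P : ℝ[X], P.natDegree ≤ d ∧ SF d Set.univ f n L - δ < cf f n L P := by
    have : Nonempty (PU d Set.univ) := ⟨⟨0, by simp [PU]⟩⟩
    have h2 : SF d Set.univ f n L - δ < ⨆ P : PU d Set.univ, cf f n L P := by
      change _ < SF d Set.univ f n L
      linarith
    obtain ⟨P, hP⟩ := exists_lt_of_lt_ciSup h2
    exact ⟨P, P.2.1, hP⟩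
  have hPu : P ∈ PU d Set.univ := ⟨hPd, Set.mem_univ _⟩
  obtain ⟨c, hc⟩ : ∃ c : ℝ, c = cf f n L P := ⟨_, rfl⟩
  have hc0 : 0 ≤ c := by rw [hc]; exact cf_nonneg _ _ _ _
  have hc1 : c ≤ 1 := by rw [hc]; exact cf_le f hf1 n L P
  have hcS : c ≤ SF d Set.univ f n L := by rw [hc]; exact le_SF f hf1 n L d hPu
  have hFc0 : 0 ≤ F c := by rw [← h0]; exact hmon hc0
  have hFc1 : F c ≤ F 1 := hmon hc1
  have hS : F (SF d Set.univ f n L) ≤ F c + ε / 4 := by
    have h2 := hu (SF d Set.univ f n L) ⟨SF_nonneg _ _ _ _ _, SF_le _ _ _ hf1 _ _⟩ c ⟨hc0, hc1⟩ (by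
      rw [Real.dist_eq, abs_of_nonneg (by linarith)]
      rw [← hc] at hPc
      linarith)
    rw [Real.dist_eq] at h2
    have := (abs_lt.1 h2).2
    linarith
  have hmS : m * F (SF d Set.univ f n L) ≤ m * F c + ε / 4 := by
    calc m * F (SF d Set.univ f n L) ≤ m * (F c + ε / 4) := mul_le_mul_of_nonneg_left hS hm0
      _ = m * F c + m * (ε / 4) := by ring
      _ ≤ m * F c + ε / 4 := by nlinarith
  have hTF : ∀ p, 0 ≤ TF d F φ f (n / p) (L / p) := fun p => TF_nonneg hmon h0 hφ f hf1 _ _ _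
  have hT0 : 0 ≤ ∑ p ∈ I, w p * TF d F φ f (n / p) (L / p) :=
    sum_nonneg fun p _ => mul_nonneg (hw0 p) (hTF p)
  by_cases hM : ((P.coeff d : ℝ) : UnitAddCircle) ∈ Mj Q τ
  · have h2 : c ≤ SF d (Mj Q τ) f n L := by rw [hc]; exact le_SF f hf1 n L d ⟨hPd, hM⟩
    have h3 : m * F c ≤ m * F (SF d (Mj Q τ) f n L) := mul_le_mul_of_nonneg_left (hmon h2) hm0
    linarith
  · have hlast : 0 ≤ m * F (SF d (Mj Q τ) f n L) := by
      refine mul_nonneg hm0 ?_
      rw [← h0]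
      exact hmon (SF_nonneg _ _ _ _ _)
    have h2 := hI2 _ hM
    set φp : ℕ → ℝ := fun p => φ ((p ^ d : ℕ) • ((P.coeff d : ℝ) : UnitAddCircle)) with hφp
    have hφp01 : ∀ p, 0 ≤ φp p ∧ φp p ≤ 1 := fun p => hφ _
    have h3 : m - ε₁ ≤ ∑ p ∈ I, w p * φp p := by
      have := (abs_le.1 h2).1
      linarith
    -- the bad primes
    classical
    let Bad : Finset ℕ := I.filter fun p =>
      ‖W (fun m => ((f m : ℝ) : ℂ)) (dil p P) (n / p) (L / p)‖ <
        (‖W (fun m => ((f m : ℝ) : ℂ)) P n L‖ / L - η) * ((L / p : ℕ) : ℝ)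
    have hbad : ∑ p ∈ Bad, 1 / (p : ℝ) ≤ 100 / η ^ 2 := by
      refine le_trans ?_ (hH L (by omega) _ (mul1 f hf) P n)
      refine sum_le_sum_of_subset_of_nonneg (fun p hp => ?_) (fun p _ _ => by positivity)
      rw [mem_filter] at hp ⊢
      exact hp
    have hbw : ∑ p ∈ Bad, w p ≤ ε₁ := by
      have h4 : A * ∑ p ∈ Bad, w p ≤ 100 / η ^ 2 := by
        rw [mul_sum]
        exact (sum_le_sum fun p hp => hwA p (mem_filter.1 hp).1).trans hbad
      have h5 : A * ε₁ = 100 / η ^ 2 := by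
        rw [hA]
        field_simp
      rw [← h5] at h4
      exact le_of_mul_le_mul_left h4 hA0
    -- the good primes
    have hterm : ∀ p ∈ I, w p * (φp p * F c) - w p * (ε / 4) - (if p ∈ Bad then w p else 0) * F 1 ≤
        w p * TF d F φ f (n / p) (L / p) := by
      intro p hp
      by_cases hb : p ∈ Bad
      · rw [if_pos hb]
        have h4 : φp p * F c ≤ F 1 := by
          calc φp p * F c ≤ 1 * F c := mul_le_mul_of_nonneg_right (hφp01 p).2 hFc0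
            _ ≤ F 1 := by rw [one_mul]; exact hFc1
        have h5 := mul_le_mul_of_nonneg_left h4 (hw0 p)
        have h6 : 0 ≤ w p * TF d F φ f (n / p) (L / p) := mul_nonneg (hw0 p) (hTF p)
        have h7 : 0 ≤ w p * (ε / 4) := mul_nonneg (hw0 p) (by positivity)
        linarith
      · rw [if_neg hb, zero_mul, sub_zero]
        have hp0 : 0 < p := (hIp p hp).pos
        have hLp1 : 1 ≤ L / p := (Nat.one_le_div_iff hp0).2 (hLp p hp)
        have hLp0 : (0 : ℝ) < ((L / p : ℕ) : ℝ) := by exact_mod_cast hLp1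
        have h4 : c - η ≤ cf f (n / p) (L / p) (dil p P) := by
          have h5 : ¬ (‖W (fun m => ((f m : ℝ) : ℂ)) (dil p P) (n / p) (L / p)‖ <
              (‖W (fun m => ((f m : ℝ) : ℂ)) P n L‖ / L - η) * ((L / p : ℕ) : ℝ)) := fun h =>
            hb (mem_filter.2 ⟨hp, h⟩)
          rw [not_lt] at h5
          rw [cf, le_div_iff₀ hLp0, hc]
          exact h5
        obtain ⟨b, hb'⟩ : ∃ b : ℝ, b = cf f (n / p) (L / p) (dil p P) := ⟨_, rfl⟩
        have hb0 : 0 ≤ b := by rw [hb']; exact cf_nonneg _ _ _ _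
        have hb1 : b ≤ 1 := by rw [hb']; exact cf_le f hf1 _ _ _
        rw [← hb'] at h4
        have h5 : F c - ε / 4 ≤ F b := by
          rcases le_total c b with h6 | h6
          · have := hmon h6
            linarith
          · have h7 := hu c ⟨hc0, hc1⟩ b ⟨hb0, hb1⟩ (by
              rw [Real.dist_eq, abs_of_nonneg (by linarith)]
              linarith)
            rw [Real.dist_eq] at h7
            have := (abs_lt.1 h7).2
            linarith
        have hdeg : (dil p P).natDegree ≤ d := by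
          unfold dil
          refine natDegree_comp_le.trans ?_
          calc P.natDegree * (C (p : ℝ) * X).natDegree ≤ P.natDegree * 1 :=
                Nat.mul_le_mul_left _ ((natDegree_C_mul_le _ _).trans natDegree_X_le)
            _ ≤ d := by rw [mul_one]; exact hPd
        have hcoef : (((dil p P).coeff d : ℝ) : UnitAddCircle) =
            (p ^ d : ℕ) • ((P.coeff d : ℝ) : UnitAddCircle) := by
          unfold dil
          rw [comp_C_mul_X_coeff, ← AddCircle.coe_nsmul, nsmul_eq_mul]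
          congr 1
          push_cast
          ring
        have h6 := le_TF hmon h0 hφ f hf1 (n / p) (L / p) d hdeg
        rw [hcoef, ← hb'] at h6
        have h7 : φp p * (F c - ε / 4) ≤ φp p * F b := mul_le_mul_of_nonneg_left h5 (hφp01 p).1
        have h8 : φp p * (ε / 4) ≤ ε / 4 := by
          have := (hφp01 p).2
          nlinarith
        rw [← mul_sub]
        refine mul_le_mul_of_nonneg_left ?_ (hw0 p)
        change φp p * F b ≤ _ at h6
        linarith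
    have hsum := sum_le_sum hterm
    rw [sum_sub_distrib, sum_sub_distrib, ← sum_mul, ← sum_mul, hw1, one_mul] at hsum
    have e1 : ∑ p ∈ I, w p * (φp p * F c) = (∑ p ∈ I, w p * φp p) * F c := by
      rw [sum_mul]
      exact sum_congr rfl fun p _ => by ring
    have e2 : ∑ p ∈ I, (if p ∈ Bad then w p else 0) = ∑ p ∈ Bad, w p := by
      rw [sum_ite_mem, inter_eq_right.2 (filter_subset _ _)]
    rw [e1, e2] at hsum
    have h11 : (m - ε₁) * F c ≤ (∑ p ∈ I, w p * φp p) * F c :=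
      mul_le_mul_of_nonneg_right h3 hFc0
    have h12 : (∑ p ∈ Bad, w p) * F 1 ≤ ε₁ * F 1 := mul_le_mul_of_nonneg_right hbw hF1
    have h13 : ε₁ * F c ≤ ε₁ * F 1 := mul_le_mul_of_nonneg_left hFc1 hε₁0.le
    rw [sub_mul] at h11
    linarith

end Pool.Agent.Helper94K9.OD
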