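import Pool.Agent.Helper94K9.OD.St5
import Pool.Agent.Helper94K9.OD.Opd
import Pool.Agent.Helper94K9.OP.Upp

/-!
# Project OD: the sharp upper bound [UP2]
-/

set_option autoImplicit false

namespace Pool.Agent.Helper94K9.OD

open Finset MeasureTheory Filter Topology
open Pool.Agent.Helper94K9.OP (X SM Mj shift seq IsMult Aperiodic IsFurstenbergSystem Val VX SU S_ORT)

namespace Up2L

open Pool.Agent.Helper94K9.OP.UppL Pool.Agent.Helper94K9.OP.SubL Pool.Agent.Helper94K9.OP.OpnL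

/-- the points of order at most two -/
def T2 : Set UnitAddCircle := {θ | (2 : ℕ) • θ = 0}

theorem T2_closed : IsClosed T2 := isClosed_eq (continuous_const_smul 2) continuous_const

theorem T2_sub : T2 ⊆ ({((0 : ℝ) : UnitAddCircle), ((1 / 2 : ℝ) : UnitAddCircle)} : Set UnitAddCircle) := by
  intro θ hθ
  obtain ⟨t, rfl⟩ := QuotientAddGroup.mk_surjective θ
  have h1 : (((2 * t : ℝ)) : UnitAddCircle) = 0 := by
    have h2 : (2 : ℕ) • ((t : ℝ) : UnitAddCircle) = 0 := hθ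
    rw [← AddCircle.coe_nsmul, nsmul_eq_mul] at h2
    exact_mod_cast h2
  rw [AddCircle.coe_eq_zero_iff] at h1
  obtain ⟨n, hn⟩ := h1
  rw [zsmul_eq_mul, mul_one] at hn
  rcases Int.even_or_odd' n with ⟨k, hk | hk⟩
  · refine Or.inl ?_
    have ht : t = (k : ℝ) := by
      rw [hk] at hn
      push_cast at hn
      linarith
    show ((t : ℝ) : UnitAddCircle) = ((0 : ℝ) : UnitAddCircle)
    rw [ht, AddCircle.coe_zero, AddCircle.coe_eq_zero_iff]
    exact ⟨k, by simp⟩
  · refine Or.inr ?_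
    have ht : t = (k : ℝ) + 1 / 2 := by
      rw [hk] at hn
      push_cast at hn
      linarith
    show ((t : ℝ) : UnitAddCircle) = ((1 / 2 : ℝ) : UnitAddCircle)
    rw [ht, AddCircle.coe_add]
    have h3 : (((k : ℤ) : ℝ) : UnitAddCircle) = 0 := by
      rw [AddCircle.coe_eq_zero_iff]
      exact ⟨k, by simp⟩
    rw [h3, zero_add]

theorem T2_vol : volume (closure T2) = 0 := by
  rw [T2_closed.closure_eq]
  refine measure_mono_null T2_sub ?_
  have h1 : ∀ θ : UnitAddCircle, volume ({θ} : Set UnitAddCircle) = 0 := by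
    intro θ
    rw [← Metric.closedBall_zero, AddCircle.volume_closedBall]
    simp
  rw [Set.insert_eq, measure_union_null_iff]
  exact ⟨h1 _, h1 _⟩

theorem near_T2 (θ : UnitAddCircle) (r : ℝ) (h : ‖(2 : ℕ) • θ‖ ≤ 2 * r) : ∃ ψ ∈ T2, dist θ ψ ≤ r := by
  obtain ⟨b, hb, hbn⟩ := Pool.Agent.Helper94K9.OP.EqvL.rep ((2 : ℕ) • θ)
  refine ⟨θ - (((b / 2 : ℝ)) : UnitAddCircle), ?_, ?_⟩
  · show (2 : ℕ) • (θ - (((b / 2 : ℝ)) : UnitAddCircle)) = 0
    have h4 : (2 : ℕ) • (((b / 2 : ℝ)) : UnitAddCircle) = ((b : ℝ) : UnitAddCircle) := by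
      rw [← AddCircle.coe_nsmul, nsmul_eq_mul]
      congr 1
      push_cast
      ring
    rw [smul_sub, h4, hb, sub_self]
  · rw [dist_eq_norm, sub_sub_cancel]
    refine (OpdL.norm_coe_le _).trans ?_
    rw [abs_div, abs_two]
    rw [hbn]
    linarith

/-- the bound for one point -/
theorem pt (hb : S_BND) (U : Set UnitAddCircle) (L : ℕ) (hL : 1 ≤ L) (C ε : ℝ) (hC : 0 < C) (hε : 0 < ε)
    (x : Pool.Agent.Helper94K9.OP.X) :
    SU U L x ^ 2 ≤ (1 + ε) / 2 * (∫ θ in Metric.cthickening (C / L) (U ∪ -U), ‖VX L x θ‖ ^ 2 / L) +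
      (1 + ε) * (∫ θ in Metric.cthickening (2 * (C / L)) T2, ‖VX L x θ‖ ^ 2 / L) + (1 + 1 / ε) / (2 * C) := by
  have hL0 : (0 : ℝ) < L := by exact_mod_cast hL
  set r : ℝ := C / L with hr
  have hr0 : 0 < r := by positivity
  set g : UnitAddCircle → ℝ := fun θ => ‖VX L x θ‖ ^ 2 / L with hg
  have hgc : Continuous g := by
    have h1 : Continuous fun θ => VX L x θ := by
      have h2 := cont_TX (fun _ => 1) L x
      refine h2.congr fun θ => ?_
      exact (VX_eq L x θ).symm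
    exact (h1.norm.pow 2).div_const _
  have hg0 : ∀ θ, 0 ≤ g θ := fun θ => by positivity
  have hgi : ∀ W : Set UnitAddCircle, IntegrableOn g W := fun W => int_cont hgc W
  have hmono : ∀ W W' : Set UnitAddCircle, W ⊆ W' → ∫ θ in W, g θ ≤ ∫ θ in W', g θ := fun W W' h =>
    setIntegral_mono_set (hgi W') (Eventually.of_forall hg0) (Eventually.of_forall h)
  have hnn : ∀ W : Set UnitAddCircle, 0 ≤ ∫ θ in W, g θ := fun W => integral_nonneg hg0
  set A := ∫ θ in Metric.cthickening r (U ∪ -U), g θ with hA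
  set Z := ∫ θ in Metric.cthickening (2 * r) T2, g θ with hZ
  set c : ℝ := (1 + 1 / ε) / (2 * C) with hc
  have hc0 : 0 < c := by positivity
  have hB0 : 0 ≤ (1 + ε) / 2 * A + (1 + ε) * Z + c := by
    have h1 := hnn (Metric.cthickening r (U ∪ -U))
    have h2 := hnn (Metric.cthickening (2 * r) T2)
    positivity
  have key : ∀ θ₀ ∈ U, (‖VX L x θ₀‖ / L) ^ 2 ≤ (1 + ε) / 2 * A + (1 + ε) * Z + c := by
    intro θ₀ hθ₀
    have h1 : (‖VX L x θ₀‖ / L) ^ 2 ≤ (1 + ε) * (∫ θ in Metric.closedBall θ₀ r, g θ) + c := hb L x θ₀ C ε hL hε hC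
    have h2 : (‖VX L x (-θ₀)‖ / L) ^ 2 ≤ (1 + ε) * (∫ θ in Metric.closedBall (-θ₀) r, g θ) + c :=
      hb L x (-θ₀) C ε hL hε hC
    rw [norm_neg_eq] at h2
    by_cases hdis : Disjoint (Metric.closedBall θ₀ r) (Metric.closedBall (-θ₀) r)
    · have h3 : (∫ θ in Metric.closedBall θ₀ r, g θ) + ∫ θ in Metric.closedBall (-θ₀) r, g θ ≤ A := by
        rw [← setIntegral_union hdis Metric.isClosed_closedBall.measurableSet (hgi _) (hgi _)]
        refine hmono _ _ (Set.union_subset ?_ ?_)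
        · exact Metric.closedBall_subset_cthickening (show θ₀ ∈ U ∪ -U from Or.inl hθ₀) r
        · exact Metric.closedBall_subset_cthickening (show -θ₀ ∈ U ∪ -U from Or.inr (by simpa using hθ₀)) r
      have h4 := mul_le_mul_of_nonneg_left h3 (by positivity : (0 : ℝ) ≤ (1 + ε))
      have h5 : 0 ≤ (1 + ε) * Z := mul_nonneg (by positivity) (hnn _)
      nlinarith
    · rw [Set.not_disjoint_iff] at hdis
      obtain ⟨ψ, hψ1, hψ2⟩ := hdis
      have h3 : ‖(2 : ℕ) • θ₀‖ ≤ 2 * r := by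
        have h4 : dist θ₀ (-θ₀) ≤ r + r := by
          refine (dist_triangle θ₀ ψ (-θ₀)).trans (add_le_add ?_ hψ2)
          rw [dist_comm]
          exact hψ1
        rw [dist_eq_norm, sub_neg_eq_add, ← two_nsmul] at h4
        linarith
      obtain ⟨ρ, hρ1, hρ2⟩ := near_T2 θ₀ r h3
      have h5 : Metric.closedBall θ₀ r ⊆ Metric.cthickening (2 * r) T2 := by
        refine (Metric.closedBall_subset_closedBall' ?_).trans (Metric.closedBall_subset_cthickening hρ1 (2 * r))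
        linarith
      have h6 := mul_le_mul_of_nonneg_left (hmono _ _ h5) (by positivity : (0 : ℝ) ≤ (1 + ε))
      have h7 : 0 ≤ (1 + ε) / 2 * A := mul_nonneg (by positivity) (hnn _)
      linarith
  have hle : SU U L x ≤ Real.sqrt ((1 + ε) / 2 * A + (1 + ε) * Z + c) := by
    refine SU_le_of U L x _ (Real.sqrt_nonneg _) fun θ hθ => ?_
    exact Real.le_sqrt_of_sq_le (key θ hθ)
  calc SU U L x ^ 2 ≤ (Real.sqrt ((1 + ε) / 2 * A + (1 + ε) * Z + c)) ^ 2 :=
        pow_le_pow_left₀ (SU_nonneg U L x) hle 2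
    _ = (1 + ε) / 2 * A + (1 + ε) * Z + c := Real.sq_sqrt hB0

theorem mean_le (μ : Measure Pool.Agent.Helper94K9.OP.X) [IsProbabilityMeasure μ]
    (ho : ∀ i j : ℤ, i ≠ j → ∫ x : Pool.Agent.Helper94K9.OP.X, (x i : ℝ) * (x j : ℝ) ∂μ = 0) (L : ℕ) (hL : 1 ≤ L)
    (W : Set UnitAddCircle) :
    Integrable (fun x : Pool.Agent.Helper94K9.OP.X => ∫ θ in W, ‖VX L x θ‖ ^ 2 / L) μ ∧
      ∫ x, (∫ θ in W, ‖VX L x θ‖ ^ 2 / L) ∂μ ≤ (volume W).toReal := by
  have hL0 : (0 : ℝ) < L := by exact_mod_cast hL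
  have h1 : (fun x : Pool.Agent.Helper94K9.OP.X => ∫ θ in W, ‖VX L x θ‖ ^ 2 / L) =
      fun x => (∫ θ in W, ‖TX (fun _ => 1) L x θ‖ ^ 2) / L := by
    funext x
    rw [← integral_div]
    refine integral_congr_ae (Eventually.of_forall fun θ => ?_)
    simp only
    rw [VX_eq]
  rw [h1]
  refine ⟨(integrable_TX μ _ L W).div_const _, ?_⟩
  rw [integral_div, div_le_iff₀ hL0]
  refine (mean_TX μ ho (fun _ => 1) L W).trans (le_of_eq ?_)
  simp
  ring

end Up2L

open Up2L Pool.Agent.Helper94K9.OP.OpfL in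
theorem up2 (hb : S_BND) (ort : S_ORT) : S_UP2 := by
  intro f μ hf ha hF U s hs
  have : IsProbabilityMeasure μ := hF.1
  have ho := ort f μ hf ha hF
  -- one scale
  have hone : ∀ (C ε : ℝ), 0 < C → 0 < ε → ∀ L : ℕ, 1 ≤ L → ∫ x, SU U L x ^ 2 ∂μ ≤
      (1 + ε) / 2 * (volume (Metric.cthickening (C / L) (U ∪ -U))).toReal +
      (1 + ε) * (volume (Metric.cthickening (2 * (C / L)) T2)).toReal + (1 + 1 / ε) / (2 * C) := by
    intro C ε hC hε L hL
    obtain ⟨i1, m1⟩ := mean_le μ ho L hL (Metric.cthickening (C / L) (U ∪ -U))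
    obtain ⟨i2, m2⟩ := mean_le μ ho L hL (Metric.cthickening (2 * (C / L)) T2)
    have i12 : Integrable (fun x : Pool.Agent.Helper94K9.OP.X =>
        (1 + ε) / 2 * (∫ θ in Metric.cthickening (C / L) (U ∪ -U), ‖VX L x θ‖ ^ 2 / L) +
        (1 + ε) * (∫ θ in Metric.cthickening (2 * (C / L)) T2, ‖VX L x θ‖ ^ 2 / L)) μ :=
      (i1.const_mul ((1 + ε) / 2)).add (i2.const_mul (1 + ε))
    have i3 : Integrable (fun x : Pool.Agent.Helper94K9.OP.X =>
        (1 + ε) / 2 * (∫ θ in Metric.cthickening (C / L) (U ∪ -U), ‖VX L x θ‖ ^ 2 / L) +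
        (1 + ε) * (∫ θ in Metric.cthickening (2 * (C / L)) T2, ‖VX L x θ‖ ^ 2 / L) + (1 + 1 / ε) / (2 * C)) μ :=
      i12.add (integrable_const _)
    have h1 := integral_mono (F_int (μ := μ) (fun y => y ^ 2) (continuous_pow 2) U L) i3
      fun x => pt hb U L hL C ε hC hε x
    refine h1.trans ?_
    rw [integral_add i12 (integrable_const _), integral_add (i1.const_mul ((1 + ε) / 2)) (i2.const_mul (1 + ε)),
      integral_const_mul, integral_const_mul, integral_const]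
    have h2 := mul_le_mul_of_nonneg_left m1 (by positivity : (0 : ℝ) ≤ (1 + ε) / 2)
    have h3 := mul_le_mul_of_nonneg_left m2 (by positivity : (0 : ℝ) ≤ (1 + ε))
    simp only [probReal_univ, smul_eq_mul, one_mul]
    linarith
  -- all scales
  have hlim : ∀ (C ε : ℝ), 0 < C → 0 < ε →
      s ≤ (1 + ε) / 2 * (volume (closure (U ∪ -U))).toReal + (1 + 1 / ε) / (2 * C) := by
    intro C ε hC hε
    have hcl : Tendsto (fun L : ℕ => C / (L : ℝ)) atTop (𝓝 0) := tendsto_const_div_atTop_nhds_zero_nat C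
    have hcl2 : Tendsto (fun L : ℕ => 2 * (C / (L : ℝ))) atTop (𝓝 0) := by
      simpa using hcl.const_mul 2
    have t1 : Tendsto (fun r : ℝ => volume (Metric.cthickening r (U ∪ -U))) (𝓝 0) (𝓝 (volume (closure (U ∪ -U)))) :=
      tendsto_measure_cthickening ⟨1, one_pos, measure_ne_top _ _⟩
    have t2 : Tendsto (fun r : ℝ => volume (Metric.cthickening r T2)) (𝓝 0) (𝓝 (volume (closure T2))) :=
      tendsto_measure_cthickening ⟨1, one_pos, measure_ne_top _ _⟩
    have u1 := (ENNReal.tendsto_toReal (measure_ne_top _ _)).comp (t1.comp hcl)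
    have u2 := (ENNReal.tendsto_toReal (measure_ne_top _ _)).comp (t2.comp hcl2)
    rw [T2_vol, ENNReal.toReal_zero] at u2
    have hR := ((u1.const_mul ((1 + ε) / 2)).add (u2.const_mul (1 + ε))).add_const ((1 + 1 / ε) / (2 * C))
    rw [mul_zero, add_zero] at hR
    refine le_of_tendsto_of_tendsto hs hR ?_
    filter_upwards [eventually_ge_atTop 1] with L hL
    exact hone C ε hC hε L hL
  -- C → ∞
  have hlim2 : ∀ ε : ℝ, 0 < ε → s ≤ (1 + ε) / 2 * (volume (closure (U ∪ -U))).toReal := by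
    intro ε hε
    refine le_of_forall_pos_le_add fun δ hδ => ?_
    have h1 := hlim ((1 + 1 / ε) / (2 * δ)) ε (by positivity) hε
    have h2 : (1 + 1 / ε) / (2 * ((1 + 1 / ε) / (2 * δ))) = δ := by
      have : (1 + 1 / ε) ≠ 0 := by positivity
      field_simp
    rw [h2] at h1
    exact h1
  refine le_of_forall_pos_le_add fun δ hδ => ?_
  have h1 := hlim2 (2 * δ) (by positivity)
  have h2 : (volume (closure (U ∪ -U))).toReal ≤ 1 := by
    have h3 : volume (closure (U ∪ -U)) ≤ 1 := by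
      refine (measure_mono (Set.subset_univ _)).trans ?_
      simp
    exact ENNReal.toReal_le_of_le_ofReal zero_le_one (by simpa using h3)
  have h3 : 0 ≤ (volume (closure (U ∪ -U))).toReal := ENNReal.toReal_nonneg
  nlinarith

end Pool.Agent.Helper94K9.OD
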